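import Pool.Agent.Lib.MP_44a246_ntMB.MB00
import Pool.Agent.Lib.MP_44a246_ntSM.SM04
import Pool.Agent.Lib.MP_44a246_ntO.OG0

/-!
# (B1) Extensions of the constants: the lemma of Gauss and the places

`κ₀ ⊆ κ₁` algebraically closed, `L₀ / κ₀` and `L₁ / κ₁` function fields of one variable, `L₀ ⊆ L₁`, `L₁`
generated by `κ₁` and `L₀`.
-/

namespace Pool.Agent.Lib.MP_44a246_ntMB

open Pool.Agent.Lib.MP_44a246_nt
open Pool.Agent.Lib.MP_44a246_ntL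
open Pool.Agent.Lib.MP_44a246_ntR
open Pool.Agent.Lib.MP_44a246_ntO
open Pool.Agent.Lib.MP_44a246_ntSM
open WithZero Module Polynomial Filter Topology

/-- a place whose valuation ring contains the one of another place is equal to it -/
theorem place_eq_of_le {κ L : Type*} [Field κ] [Field L] [Algebra κ L] {v v' : Place κ L}
    (h : ∀ u, v.1 u ≤ 1 → v'.1 u ≤ 1) : v = v' := by
  obtain ⟨π, hπ⟩ := v.2.1 (exp (-1 : ℤ))
  have hπ0 : π ≠ 0 := by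
    rintro rfl
    rw [map_zero] at hπ
    exact exp_ne_zero hπ.symm
  have hv'π : v'.1 π ≠ 0 := (v'.1.ne_zero_iff).2 hπ0
  -- the formula for `v'`
  have key : ∀ u, u ≠ 0 → v'.1 u = v'.1 π ^ (- log (v.1 u)) := by
    intro u hu
    have hvu : v.1 u ≠ 0 := (v.1.ne_zero_iff).2 hu
    have h1 : v.1 (u * π ^ (log (v.1 u))) = 1 := by
      rw [map_mul, map_zpow₀, hπ, ← exp_zsmul, smul_eq_mul, mul_neg, mul_one]
      nth_rewrite 1 [← exp_log hvu]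
      rw [← exp_add, add_neg_cancel, exp_zero]
    have h2 : v'.1 (u * π ^ (log (v.1 u))) ≤ 1 := h _ h1.le
    have h3 : v'.1 (u * π ^ (log (v.1 u)))⁻¹ ≤ 1 := h _ (by rw [map_inv₀, h1, inv_one])
    have hne : v'.1 (u * π ^ (log (v.1 u))) ≠ 0 :=
      (v'.1.ne_zero_iff).2 (mul_ne_zero hu (zpow_ne_zero _ hπ0))
    have h4 : v'.1 (u * π ^ (log (v.1 u))) = 1 := by
      apply le_antisymm h2
      rw [map_inv₀] at h3
      exact (inv_le_one₀ (zero_lt_iff.2 hne)).1 h3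
    rw [map_mul, map_zpow₀] at h4
    rw [zpow_neg]
    exact eq_inv_of_mul_eq_one_left h4
  obtain ⟨e, he⟩ : ∃ e : ℤ, v'.1 π = exp e := ⟨log (v'.1 π), (exp_log hv'π).symm⟩
  obtain ⟨z, hz⟩ := v'.2.1 (exp (1 : ℤ))
  have hz0 : z ≠ 0 := by
    rintro rfl
    rw [map_zero] at hz
    exact exp_ne_zero hz.symm
  have h5 := key z hz0
  rw [hz, he, ← exp_zsmul, smul_eq_mul] at h5
  have h6 : (1 : ℤ) = - log (v.1 z) * e := exp_injective h5
  have h7 : v'.1 π ≤ 1 := h π (by rw [hπ, ← exp_zero, exp_le_exp]; omega)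
  rw [he, ← exp_zero, exp_le_exp] at h7
  have h8 : e = -1 := by
    have h9 : e ∣ 1 := ⟨- log (v.1 z), by rw [mul_comm]; exact h6⟩
    have h10 := Int.isUnit_iff.1 (isUnit_of_dvd_one h9)
    omega
  apply Subtype.ext
  apply Valuation.ext
  intro u
  rcases eq_or_ne u 0 with rfl | hu
  · rw [map_zero, map_zero]
  · rw [key u hu, he, h8, ← exp_zsmul, smul_eq_mul]
    have hvu : v.1 u ≠ 0 := (v.1.ne_zero_iff).2 hu
    rw [show (- log (v.1 u)) * -1 = log (v.1 u) by ring, exp_log hvu]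

section

variable {κ₀ κ₁ L₀ L₁ : Type*} [Field κ₀] [IsAlgClosed κ₀] [CharZero κ₀] [Field κ₁] [IsAlgClosed κ₁]
  [CharZero κ₁] [Field L₀] [Field L₁] [Algebra κ₀ L₀] [Algebra κ₁ L₁] [Algebra κ₀ κ₁]
  [Algebra L₀ L₁] [Algebra κ₀ L₁] [IsScalarTower κ₀ κ₁ L₁] [IsScalarTower κ₀ L₀ L₁]

/-- the place `w` is not trivial on `L₀` -/
def Ntr (L₀ : Type*) [Field L₀] [Algebra L₀ L₁] (w : Place κ₁ L₁) : Prop :=
  ∃ u : L₀, u ≠ 0 ∧ w.1 (algebraMap L₀ L₁ u) < 1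

omit [IsAlgClosed κ₁] [CharZero κ₁] in
theorem ntr_of_ne_one {w : Place κ₁ L₁} {u : L₀} (hu : u ≠ 0) (h : w.1 (algebraMap L₀ L₁ u) ≠ 1) :
    Ntr L₀ w := by
  rcases lt_or_gt_of_ne h with h1 | h1
  · exact ⟨u, hu, h1⟩
  · refine ⟨u⁻¹, inv_ne_zero hu, ?_⟩
    rw [map_inv₀, map_inv₀]
    exact inv_lt_one_of_one_lt₀ h1

omit [IsAlgClosed κ₁] [CharZero κ₁] in
theorem eq_one_of_not_ntr {w : Place κ₁ L₁} (hw : ¬ Ntr L₀ w) {u : L₀} (hu : u ≠ 0) :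
    w.1 (algebraMap L₀ L₁ u) = 1 := by
  by_contra h
  exact hw (ntr_of_ne_one hu h)

omit [IsAlgClosed κ₀] [CharZero κ₀] [IsAlgClosed κ₁] [CharZero κ₁] in
theorem ce_const (w : Place κ₁ L₁) {c : κ₀} (hc : c ≠ 0) :
    w.1 (algebraMap L₀ L₁ (algebraMap κ₀ L₀ c)) = 1 := by
  rw [← IsScalarTower.algebraMap_apply κ₀ L₀ L₁, IsScalarTower.algebraMap_apply κ₀ κ₁ L₁]
  exact w.2.2 _ (by rw [Ne, map_eq_zero]; exact hc)

omit [IsAlgClosed κ₁] [CharZero κ₁] in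
theorem exists_below (h₀ : IsFF κ₀ L₀) {w : Place κ₁ L₁} (hw : Ntr L₀ w) :
    ∃ v : Place κ₀ L₀, ∀ u, w.1 (algebraMap L₀ L₁ u) ≤ 1 ↔ v.1 u ≤ 1 := by
  obtain ⟨v, hv⟩ := exists_place_of_subring h₀ ((w.1.comap (algebraMap L₀ L₁)).valuationSubring)
    (fun c => by
      rw [Valuation.mem_valuationSubring_iff, Valuation.comap_apply]
      by_cases hc : c = 0
      · rw [hc, map_zero, map_zero, map_zero]
        exact zero_le
      · rw [ce_const w hc]) (by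
      obtain ⟨u, hu, h1⟩ := hw
      refine ⟨u⁻¹, ?_⟩
      rw [Valuation.mem_valuationSubring_iff, Valuation.comap_apply, map_inv₀, map_inv₀, not_le]
      exact (one_lt_inv₀ (zero_lt_iff.2 ((w.1.ne_zero_iff).2
        ((_root_.map_ne_zero _).2 hu)))).2 h1)
  refine ⟨v, fun u => ?_⟩
  rw [← hv u, Valuation.mem_valuationSubring_iff, Valuation.comap_apply]

omit [IsAlgClosed κ₁] [CharZero κ₁] in
theorem residue_below (h₀ : IsFF κ₀ L₀) {w : Place κ₁ L₁} (hw : Ntr L₀ w) {g : L₀}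
    (hg : w.1 (algebraMap L₀ L₁ g) ≤ 1) :
    ∃ c : κ₀, w.1 (algebraMap L₀ L₁ (g - algebraMap κ₀ L₀ c)) < 1 := by
  obtain ⟨v, hv⟩ := exists_below h₀ hw
  obtain ⟨c, hc⟩ := h₀.place_residue v ((hv g).1 hg)
  refine ⟨c, ?_⟩
  by_contra hcon
  rw [not_lt] at hcon
  set y := g - algebraMap κ₀ L₀ c with hy
  have hy0 : y ≠ 0 := by
    intro h0
    rw [h0, map_zero, map_zero] at hcon
    exact absurd hcon (not_le.2 zero_lt_one)
  have h1 : w.1 (algebraMap L₀ L₁ y⁻¹) ≤ 1 := by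
    rw [map_inv₀, map_inv₀]
    exact inv_le_one_of_one_le₀ hcon
  have h2 := (hv y⁻¹).1 h1
  rw [map_inv₀] at h2
  have h3 : v.1 y ≠ 0 := (v.1.ne_zero_iff).2 hy0
  have h4 := (inv_le_one₀ (zero_lt_iff.2 h3)).1 h2
  exact absurd hc (not_lt.2 h4)

omit [IsAlgClosed κ₁] [CharZero κ₁] in
/-- **the lemma of Gauss** -/
theorem gauss (h₀ : IsFF κ₀ L₀) {w : Place κ₁ L₁} (hw : Ntr L₀ w) {I : Type*} {a : I → κ₁}
    (ha : LinearIndependent κ₀ a) (s : Finset I) (f : I → L₀) {i₀ : I} (hi₀ : i₀ ∈ s)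
    (hmax : ∀ i ∈ s, w.1 (algebraMap L₀ L₁ (f i)) ≤ w.1 (algebraMap L₀ L₁ (f i₀))) :
    w.1 (∑ i ∈ s, algebraMap κ₁ L₁ (a i) * algebraMap L₀ L₁ (f i)) =
      w.1 (algebraMap L₀ L₁ (f i₀)) := by
  rcases eq_or_ne (f i₀) 0 with h0 | h0
  · have h1 : ∀ i ∈ s, f i = 0 := by
      intro i hi
      have h2 := hmax i hi
      rw [h0, map_zero, map_zero, le_zero_iff, Valuation.zero_iff] at h2
      exact (map_eq_zero _).1 h2
    rw [Finset.sum_eq_zero fun i hi => by rw [h1 i hi, map_zero, mul_zero], h0, map_zero,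
      map_zero, map_zero]
  have hw0 : w.1 (algebraMap L₀ L₁ (f i₀)) ≠ 0 :=
    (w.1.ne_zero_iff).2 ((_root_.map_ne_zero _).2 h0)
  have hg : ∀ i ∈ s, w.1 (algebraMap L₀ L₁ (f i / f i₀)) ≤ 1 := by
    intro i hi
    rw [map_div₀, map_div₀]
    exact div_le_one_of_le₀ (hmax i hi) zero_le
  have hex : ∀ i : I, ∃ c : κ₀, i ∈ s → w.1 (algebraMap L₀ L₁ (f i / f i₀ -
      algebraMap κ₀ L₀ c)) < 1 := by
    intro i
    by_cases hi : i ∈ s
    · obtain ⟨c, hc⟩ := residue_below h₀ hw (hg i hi)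
      exact ⟨c, fun _ => hc⟩
    · exact ⟨0, fun h => absurd h hi⟩
  choose c hc using hex
  have hci : c i₀ ≠ 0 := by
    intro h1
    have h2 := hc i₀ hi₀
    rw [h1, map_zero, sub_zero, div_self h0, map_one, map_one] at h2
    exact lt_irrefl _ h2
  have hsum : ∑ i ∈ s, c i • a i ≠ 0 := by
    intro h1
    exact hci (linearIndependent_iff'.1 ha s c h1 i₀ hi₀)
  have e1 : ∑ i ∈ s, algebraMap κ₁ L₁ (a i) * algebraMap L₀ L₁ (f i) =
      algebraMap L₀ L₁ (f i₀) * (∑ i ∈ s, algebraMap κ₁ L₁ (a i) *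
        algebraMap L₀ L₁ (f i / f i₀ - algebraMap κ₀ L₀ (c i)) +
        algebraMap κ₁ L₁ (∑ i ∈ s, c i • a i)) := by
    rw [map_sum, ← Finset.sum_add_distrib, Finset.mul_sum]
    refine Finset.sum_congr rfl fun i _ => ?_
    have e2 : algebraMap κ₁ L₁ (c i • a i) =
        algebraMap κ₁ L₁ (a i) * algebraMap L₀ L₁ (algebraMap κ₀ L₀ (c i)) := by
      rw [Algebra.smul_def, map_mul, ← IsScalarTower.algebraMap_apply κ₀ L₀ L₁,
        IsScalarTower.algebraMap_apply κ₀ κ₁ L₁, mul_comm]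
    rw [e2, ← mul_add, ← map_add, sub_add_cancel, mul_left_comm, ← map_mul,
      mul_div_cancel₀ _ h0]
  have e3 : w.1 (algebraMap κ₁ L₁ (∑ i ∈ s, c i • a i)) = 1 := w.2.2 _ hsum
  have e4 : w.1 (∑ i ∈ s, algebraMap κ₁ L₁ (a i) *
        algebraMap L₀ L₁ (f i / f i₀ - algebraMap κ₀ L₀ (c i))) < 1 := by
    refine w.1.map_sum_lt one_ne_zero fun i hi => ?_
    rw [map_mul]
    calc w.1 (algebraMap κ₁ L₁ (a i)) * _ ≤ 1 * _ := mul_le_mul_left (by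
            by_cases h : a i = 0
            · rw [h, map_zero, map_zero]; exact zero_le
            · exact (w.2.2 _ h).le) _
      _ = _ := one_mul _
      _ < 1 := hc i hi
  rw [e1, map_mul, Valuation.map_add_eq_of_lt_right _ (by rw [e3]; exact e4), e3, mul_one]

omit [IsAlgClosed κ₁] [CharZero κ₁] in
/-- linear disjointness -/
theorem lin_disj (h₀ : IsFF κ₀ L₀) {w : Place κ₁ L₁} (hw : Ntr L₀ w) {I : Type*} {a : I → κ₁}
    (ha : LinearIndependent κ₀ a) (s : Finset I) (f : I → L₀)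
    (h : ∑ i ∈ s, algebraMap κ₁ L₁ (a i) * algebraMap L₀ L₁ (f i) = 0) : ∀ i ∈ s, f i = 0 := by
  intro i hi
  obtain ⟨i₀, hi₀, hmax⟩ := Finset.exists_max_image s (fun i => w.1 (algebraMap L₀ L₁ (f i)))
    ⟨i, hi⟩
  have h1 := gauss h₀ hw ha s f hi₀ hmax
  rw [h, map_zero] at h1
  have h2 := hmax i hi
  rw [← h1, le_zero_iff, Valuation.zero_iff] at h2
  exact (map_eq_zero _).1 h2

/-! ### The elements of the ring generated by `κ₁` and a subring of `L₀` -/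

/-- a basis of `κ₁` over `κ₀` -/
noncomputable def ceB (κ₀ κ₁ : Type*) [Field κ₀] [Field κ₁] [Algebra κ₀ κ₁] :
    Basis (Basis.ofVectorSpaceIndex κ₀ κ₁) κ₀ κ₁ := Basis.ofVectorSpace κ₀ κ₁

/-- `y` is a combination of the basis with coefficients in `O` -/
def Rep (κ₀ κ₁ : Type*) {L₀ L₁ : Type*} [Field κ₀] [Field κ₁] [Field L₀] [Field L₁] [Algebra κ₀ κ₁]
    [Algebra κ₁ L₁] [Algebra L₀ L₁] (O : Subring L₀) (y : L₁) : Prop :=
  ∃ f : Basis.ofVectorSpaceIndex κ₀ κ₁ →₀ L₀, (∀ i, f i ∈ O) ∧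
    y = f.sum fun i c => algebraMap κ₁ L₁ (ceB κ₀ κ₁ i) * algebraMap L₀ L₁ c

omit [IsAlgClosed κ₀] [CharZero κ₀] [IsAlgClosed κ₁] [CharZero κ₁] [Algebra κ₀ L₀]
  [Algebra κ₀ L₁] [IsScalarTower κ₀ κ₁ L₁] [IsScalarTower κ₀ L₀ L₁] in
theorem Rep.zero (O : Subring L₀) : Rep κ₀ κ₁ O (0 : L₁) :=
  ⟨0, fun i => by rw [Finsupp.zero_apply]; exact O.zero_mem, by rw [Finsupp.sum_zero_index]⟩

omit [IsAlgClosed κ₀] [CharZero κ₀] [IsAlgClosed κ₁] [CharZero κ₁] [Algebra κ₀ L₀]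
  [Algebra κ₀ L₁] [IsScalarTower κ₀ κ₁ L₁] [IsScalarTower κ₀ L₀ L₁] in
theorem Rep.add {O : Subring L₀} {y z : L₁} (hy : Rep κ₀ κ₁ O y) (hz : Rep κ₀ κ₁ O z) :
    Rep κ₀ κ₁ O (y + z) := by
  classical
  obtain ⟨f, hf, rfl⟩ := hy
  obtain ⟨g, hg, rfl⟩ := hz
  refine ⟨f + g, fun i => ?_, ?_⟩
  · rw [Finsupp.add_apply]
    exact O.add_mem (hf i) (hg i)
  · rw [Finsupp.sum_add_index']
    · intro i
      rw [map_zero, mul_zero]
    · intro i c d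
      rw [map_add, mul_add]

omit [IsAlgClosed κ₀] [CharZero κ₀] [IsAlgClosed κ₁] [CharZero κ₁] [Algebra κ₀ L₀]
  [Algebra κ₀ L₁] [IsScalarTower κ₀ κ₁ L₁] [IsScalarTower κ₀ L₀ L₁] in
theorem Rep.smul {O : Subring L₀} {y : L₁} (hy : Rep κ₀ κ₁ O y) {u : L₀} (hu : u ∈ O) :
    Rep κ₀ κ₁ O (algebraMap L₀ L₁ u * y) := by
  obtain ⟨f, hf, rfl⟩ := hy
  refine ⟨u • f, fun i => ?_, ?_⟩
  · rw [Finsupp.smul_apply, smul_eq_mul]
    exact O.mul_mem hu (hf i)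
  · rw [Finsupp.sum_smul_index (fun i => by rw [map_zero, mul_zero]), Finsupp.sum,
      Finsupp.sum, Finset.mul_sum]
    refine Finset.sum_congr rfl fun i _ => ?_
    rw [map_mul]
    ring

omit [IsAlgClosed κ₀] [CharZero κ₀] [IsAlgClosed κ₁] [CharZero κ₁] [Algebra κ₀ L₀]
  [Algebra κ₀ L₁] [IsScalarTower κ₀ κ₁ L₁] [IsScalarTower κ₀ L₀ L₁] in
theorem Rep.sum {O : Subring L₀} {J : Type*} (s : Finset J) {y : J → L₁}
    (hy : ∀ i ∈ s, Rep κ₀ κ₁ O (y i)) : Rep κ₀ κ₁ O (∑ i ∈ s, y i) :=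
  Finset.sum_induction y (Rep κ₀ κ₁ O) (fun _ _ => Rep.add) (Rep.zero O) hy

omit [IsAlgClosed κ₀] [CharZero κ₀] [IsAlgClosed κ₁] [CharZero κ₁] in
theorem Rep.const {O : Subring L₀} (hO : ∀ c : κ₀, algebraMap κ₀ L₀ c ∈ O) (a : κ₁) :
    Rep κ₀ κ₁ O (algebraMap κ₁ L₁ a) := by
  refine ⟨((ceB κ₀ κ₁).repr a).mapRange (algebraMap κ₀ L₀) (map_zero _), fun i => ?_, ?_⟩
  · rw [Finsupp.mapRange_apply]
    exact hO _
  · rw [Finsupp.sum_mapRange_index (fun i => by rw [map_zero, mul_zero])]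
    conv_lhs => rw [← (ceB κ₀ κ₁).linearCombination_repr a]
    rw [Finsupp.linearCombination_apply, Finsupp.sum, map_sum]
    refine Finset.sum_congr rfl fun i _ => ?_
    beta_reduce
    rw [Algebra.smul_def, map_mul, ← IsScalarTower.algebraMap_apply κ₀ L₀ L₁,
      IsScalarTower.algebraMap_apply κ₀ κ₁ L₁, mul_comm]

omit [IsAlgClosed κ₀] [CharZero κ₀] [IsAlgClosed κ₁] [CharZero κ₁] in
theorem Rep.mul {O : Subring L₀} (hO : ∀ c : κ₀, algebraMap κ₀ L₀ c ∈ O) {y z : L₁}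
    (hy : Rep κ₀ κ₁ O y) (hz : Rep κ₀ κ₁ O z) : Rep κ₀ κ₁ O (y * z) := by
  obtain ⟨f, hf, rfl⟩ := hy
  obtain ⟨g, hg, rfl⟩ := hz
  rw [Finsupp.sum, Finsupp.sum, Finset.sum_mul]
  refine Rep.sum _ fun i _ => ?_
  rw [Finset.mul_sum]
  refine Rep.sum _ fun j _ => ?_
  have e : algebraMap κ₁ L₁ (ceB κ₀ κ₁ i) * algebraMap L₀ L₁ (f i) *
      (algebraMap κ₁ L₁ (ceB κ₀ κ₁ j) * algebraMap L₀ L₁ (g j)) =
      algebraMap L₀ L₁ (f i * g j) * algebraMap κ₁ L₁ (ceB κ₀ κ₁ i * ceB κ₀ κ₁ j) := by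
    rw [map_mul, map_mul]
    ring
  rw [e]
  exact (Rep.const hO _).smul (O.mul_mem (hf i) (hg j))

omit [IsAlgClosed κ₀] [CharZero κ₀] [IsAlgClosed κ₁] [CharZero κ₁] in
/-- the elements of the subring generated by `κ₁` and `O` -/
theorem exists_rep {O : Subring L₀} (hO : ∀ c : κ₀, algebraMap κ₀ L₀ c ∈ O) {y : L₁}
    (hy : y ∈ Subring.closure (Set.range (algebraMap κ₁ L₁) ∪ algebraMap L₀ L₁ '' O)) :
    Rep κ₀ κ₁ O y := by
  induction hy using Subring.closure_induction with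
  | mem x hx =>
    rcases hx with ⟨a, rfl⟩ | ⟨u, hu, rfl⟩
    · exact Rep.const hO a
    · have h1 := (Rep.const (L₁ := L₁) (κ₁ := κ₁) hO 1).smul hu
      rwa [map_one, mul_one] at h1
  | zero => exact Rep.zero O
  | one =>
    have h1 := Rep.const (L₁ := L₁) (κ₁ := κ₁) hO 1
    rwa [map_one] at h1
  | add x y _ _ hx hy => exact hx.add hy
  | neg x _ hx =>
    have h1 := hx.smul (O.neg_mem O.one_mem)
    rwa [map_neg, map_one, neg_one_mul] at h1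
  | mul x y _ _ hx hy => exact hx.mul hO hy

omit [IsAlgClosed κ₁] [CharZero κ₁] in
/-- the absolute value of an element of the ring generated by `κ₁` and `L₀`, at a place which is not
trivial on `L₀`, is the one of an element of `L₀` which depends only on the restriction of the
place -/
theorem rep_val (h₀ : IsFF κ₀ L₀) {y : L₁} (hy : Rep κ₀ κ₁ (⊤ : Subring L₀) y)
    {w : Place κ₁ L₁} (hw : Ntr L₀ w) :
    ∃ u : L₀, w.1 y = w.1 (algebraMap L₀ L₁ u) ∧ ∀ w' : Place κ₁ L₁, Ntr L₀ w' →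
      (∀ z : L₀, w.1 (algebraMap L₀ L₁ z) = w'.1 (algebraMap L₀ L₁ z)) →
        w'.1 y = w'.1 (algebraMap L₀ L₁ u) := by
  obtain ⟨f, -, rfl⟩ := hy
  rcases f.support.eq_empty_or_nonempty with hs | hs
  · refine ⟨0, ?_, fun w' _ _ => ?_⟩
    · rw [Finsupp.sum, hs, Finset.sum_empty, map_zero, map_zero, map_zero]
    · rw [Finsupp.sum, hs, Finset.sum_empty, map_zero, map_zero, map_zero]
  · obtain ⟨i₀, hi₀, hmax⟩ := Finset.exists_max_image f.support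
      (fun i => w.1 (algebraMap L₀ L₁ (f i))) hs
    refine ⟨f i₀, gauss h₀ hw (ceB κ₀ κ₁).linearIndependent f.support f hi₀ hmax,
      fun w' hw' h => gauss h₀ hw' (ceB κ₀ κ₁).linearIndependent f.support f hi₀ fun i hi => ?_⟩
    rw [← h, ← h]
    exact hmax i hi

omit [IsAlgClosed κ₀] [CharZero κ₀] [IsAlgClosed κ₁] [CharZero κ₁] in
/-- every element of `L₁` is a quotient of elements of the ring generated by `κ₁` and `L₀` -/
theorem exists_quot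
    (hgen : Subfield.closure (Set.range (algebraMap κ₁ L₁) ∪ Set.range (algebraMap L₀ L₁)) = ⊤)
    (y : L₁) : ∃ y₁ y₂ : L₁, Rep κ₀ κ₁ (⊤ : Subring L₀) y₁ ∧ Rep κ₀ κ₁ (⊤ : Subring L₀) y₂ ∧
      y = y₁ / y₂ := by
  have h1 : y ∈ Subfield.closure (Set.range (algebraMap κ₁ L₁) ∪ Set.range (algebraMap L₀ L₁)) := by
    rw [hgen]
    exact Subfield.mem_top y
  rw [Subfield.mem_closure_iff] at h1
  obtain ⟨y₁, hy₁, y₂, hy₂, h2⟩ := h1
  have e : algebraMap L₀ L₁ '' ((⊤ : Subring L₀) : Set L₀) = Set.range (algebraMap L₀ L₁) := by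
    rw [Subring.coe_top, Set.image_univ]
  rw [← e] at hy₁ hy₂
  exact ⟨y₁, y₂, exists_rep (fun c => Subring.mem_top _) hy₁,
    exists_rep (fun c => Subring.mem_top _) hy₂, h2.symm⟩

omit [IsAlgClosed κ₁] [CharZero κ₁] in
theorem quot_val (h₀ : IsFF κ₀ L₀)
    (hgen : Subfield.closure (Set.range (algebraMap κ₁ L₁) ∪ Set.range (algebraMap L₀ L₁)) = ⊤)
    (y : L₁) {w : Place κ₁ L₁} (hw : Ntr L₀ w) :
    ∃ u : L₀, w.1 y = w.1 (algebraMap L₀ L₁ u) ∧ ∀ w' : Place κ₁ L₁, Ntr L₀ w' →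
      (∀ z : L₀, w.1 (algebraMap L₀ L₁ z) = w'.1 (algebraMap L₀ L₁ z)) →
        w'.1 y = w'.1 (algebraMap L₀ L₁ u) := by
  obtain ⟨y₁, y₂, h1, h2, rfl⟩ := exists_quot (κ₀ := κ₀) hgen y
  obtain ⟨u₁, hu₁, hu₁'⟩ := rep_val h₀ h1 hw
  obtain ⟨u₂, hu₂, hu₂'⟩ := rep_val h₀ h2 hw
  refine ⟨u₁ / u₂, ?_, fun w' hw' h => ?_⟩
  · rw [map_div₀, map_div₀, map_div₀, hu₁, hu₂]
  · rw [map_div₀, map_div₀, map_div₀, hu₁' w' hw' h, hu₂' w' hw' h]

omit [IsAlgClosed κ₁] [CharZero κ₁] in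
/-- a place which is not trivial on `L₀` is determined by its restriction -/
theorem ntr_unique (h₀ : IsFF κ₀ L₀)
    (hgen : Subfield.closure (Set.range (algebraMap κ₁ L₁) ∪ Set.range (algebraMap L₀ L₁)) = ⊤)
    {w w' : Place κ₁ L₁} (hw : Ntr L₀ w) (hw' : Ntr L₀ w')
    (h : ∀ z : L₀, w.1 (algebraMap L₀ L₁ z) = w'.1 (algebraMap L₀ L₁ z)) : w = w' := by
  apply Subtype.ext
  apply Valuation.ext
  intro y
  obtain ⟨u, h1, h2⟩ := quot_val h₀ hgen y hw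
  rw [h1, h2 w' hw' h, h]

omit [IsAlgClosed κ₁] [CharZero κ₁] in
/-- the restriction of a place which is not trivial on `L₀` -/
theorem exists_res (h₀ : IsFF κ₀ L₀)
    (hgen : Subfield.closure (Set.range (algebraMap κ₁ L₁) ∪ Set.range (algebraMap L₀ L₁)) = ⊤)
    {w : Place κ₁ L₁} (hw : Ntr L₀ w) :
    ∃ v : Place κ₀ L₀, ∀ u, w.1 (algebraMap L₀ L₁ u) = v.1 u := by
  refine ⟨⟨w.1.comap (algebraMap L₀ L₁), fun z => ?_, fun c hc => ?_⟩, fun u => rfl⟩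
  · obtain ⟨y, hy⟩ := w.2.1 z
    obtain ⟨u, hu, -⟩ := quot_val h₀ hgen y hw
    exact ⟨u, by rw [Valuation.comap_apply, ← hu, hy]⟩
  · rw [Valuation.comap_apply]
    exact ce_const w hc

/-- every place of `L₀` has an extension -/
theorem exists_ext_aux (h₀ : IsFF κ₀ L₀) (h₁ : IsFF κ₁ L₁)
    (hgen : Subfield.closure (Set.range (algebraMap κ₁ L₁) ∪ Set.range (algebraMap L₀ L₁)) = ⊤)
    {w₀ : Place κ₁ L₁} (hw₀ : Ntr L₀ w₀) (v : Place κ₀ L₀) :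
    ∃ w : Place κ₁ L₁, Ntr L₀ w ∧ ∀ u, w.1 (algebraMap L₀ L₁ u) = v.1 u := by
  obtain ⟨π, hπ⟩ := v.2.1 (exp (-1 : ℤ))
  have hπ1 : v.1 π < 1 := by
    rw [hπ, ← exp_zero, exp_lt_exp]
    omega
  have hπ0 : π ≠ 0 := by
    rintro rfl
    rw [map_zero] at hπ
    exact exp_ne_zero hπ.symm
  obtain ⟨O, hO⟩ : ∃ O : Subring L₀, O = v.1.valuationSubring.toSubring := ⟨_, rfl⟩
  have hOm : ∀ u, u ∈ O ↔ v.1 u ≤ 1 := by
    intro u
    rw [hO]
    exact Iff.rfl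
  have hOc : ∀ c : κ₀, algebraMap κ₀ L₀ c ∈ O := fun c => (hOm _).2 (place_const_le v c)
  let A : Subring L₁ := Subring.closure (Set.range (algebraMap κ₁ L₁) ∪ algebraMap L₀ L₁ '' O)
  have hπA : algebraMap L₀ L₁ π ∈ A :=
    Subring.subset_closure (Or.inr ⟨π, (hOm π).2 hπ1.le, rfl⟩)
  let J : Ideal A := Ideal.span {⟨algebraMap L₀ L₁ π, hπA⟩}
  have hJ : J ≠ ⊤ := by
    intro htop
    have h1 : (1 : A) ∈ J := by rw [htop]; exact Submodule.mem_top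
    obtain ⟨a, ha⟩ := Ideal.mem_span_singleton'.1 h1
    have h2 : (a : L₁) * algebraMap L₀ L₁ π = 1 := congrArg Subtype.val ha
    obtain ⟨f, hf, hfa⟩ := exists_rep (κ₀ := κ₀) hOc a.2
    obtain ⟨g, hg⟩ : ∃ g : Basis.ofVectorSpaceIndex κ₀ κ₁ →₀ κ₀, g = (ceB κ₀ κ₁).repr 1 :=
      ⟨_, rfl⟩
    classical
    obtain ⟨s, hs⟩ : ∃ s, s = f.support ∪ g.support := ⟨_, rfl⟩
    have e1 : (1 : κ₁) = ∑ i ∈ s, g i • ceB κ₀ κ₁ i := by
      conv_lhs => rw [← (ceB κ₀ κ₁).linearCombination_repr 1, ← hg]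
      rw [Finsupp.linearCombination_apply]
      refine Finsupp.sum_of_support_subset _ (by rw [hs]; exact Finset.subset_union_right) _ ?_
      intro i _
      rw [zero_smul]
    have e2 : (a : L₁) = ∑ i ∈ s, algebraMap κ₁ L₁ (ceB κ₀ κ₁ i) * algebraMap L₀ L₁ (f i) := by
      rw [hfa]
      refine Finsupp.sum_of_support_subset _ (by rw [hs]; exact Finset.subset_union_left) _ ?_
      intro i _
      rw [map_zero, mul_zero]
    have e3 : ∑ i ∈ s, algebraMap κ₁ L₁ (ceB κ₀ κ₁ i) *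
        algebraMap L₀ L₁ (f i * π - algebraMap κ₀ L₀ (g i)) = 0 := by
      have e4 : (1 : L₁) = ∑ i ∈ s, algebraMap κ₁ L₁ (ceB κ₀ κ₁ i) *
          algebraMap L₀ L₁ (algebraMap κ₀ L₀ (g i)) := by
        rw [← map_one (algebraMap κ₁ L₁), e1, map_sum]
        refine Finset.sum_congr rfl fun i _ => ?_
        rw [Algebra.smul_def, map_mul, ← IsScalarTower.algebraMap_apply κ₀ L₀ L₁,
          IsScalarTower.algebraMap_apply κ₀ κ₁ L₁, mul_comm]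
      rw [← sub_eq_zero.2 h2, e2, e4, Finset.sum_mul, ← Finset.sum_sub_distrib]
      refine Finset.sum_congr rfl fun i _ => ?_
      rw [map_sub, map_mul]
      ring
    have h3 := lin_disj h₀ hw₀ (ceB κ₀ κ₁).linearIndependent s _ e3
    have h4 : ∀ i ∈ s, g i = 0 := by
      intro i hi
      by_contra hgi
      have h5 := v.2.2 (g i) hgi
      rw [← sub_eq_zero.1 (h3 i hi), map_mul] at h5
      have h6 : v.1 (f i) * v.1 π < 1 := by
        calc v.1 (f i) * v.1 π ≤ 1 * v.1 π := mul_le_mul_left ((hOm _).1 (hf i)) _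
          _ = v.1 π := one_mul _
          _ < 1 := hπ1
      rw [h5] at h6
      exact lt_irrefl _ h6
    rw [Finset.sum_eq_zero fun i hi => by rw [h4 i hi, zero_smul]] at e1
    exact one_ne_zero e1
  obtain ⟨B, hAB, hJB⟩ := Ideal.image_subset_nonunits_valuationSubring J hJ
  have hπB : algebraMap L₀ L₁ π ∈ B.nonunits :=
    hJB ⟨⟨algebraMap L₀ L₁ π, hπA⟩, Ideal.subset_span rfl, rfl⟩
  have hπB' : (algebraMap L₀ L₁ π)⁻¹ ∉ B := by
    intro hmem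
    have h1 := (ValuationSubring.mem_nonunits_iff B).1 hπB
    have h2 := (B.valuation_le_one_iff _).2 hmem
    rw [map_inv₀] at h2
    have h3 : B.valuation (algebraMap L₀ L₁ π) ≠ 0 :=
      (Valuation.ne_zero_iff _).2 ((_root_.map_ne_zero _).2 hπ0)
    have h4 := (inv_le_one₀ (zero_lt_iff.2 h3)).1 h2
    exact absurd h1 (not_lt.2 h4)
  obtain ⟨w, hw⟩ := exists_place_of_subring h₁ B
    (fun c => hAB (Subring.subset_closure (Or.inl ⟨c, rfl⟩))) ⟨_, hπB'⟩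
  have hwπ : w.1 (algebraMap L₀ L₁ π) < 1 := by
    have h1 : ¬ w.1 (algebraMap L₀ L₁ π)⁻¹ ≤ 1 := fun h2 => hπB' ((hw _).2 h2)
    rw [map_inv₀, not_le] at h1
    have h3 : w.1 (algebraMap L₀ L₁ π) ≠ 0 :=
      (w.1.ne_zero_iff).2 ((_root_.map_ne_zero _).2 hπ0)
    exact (one_lt_inv₀ (zero_lt_iff.2 h3)).1 h1
  have hntr : Ntr L₀ w := ⟨π, hπ0, hwπ⟩
  obtain ⟨v', hv'⟩ := exists_res h₀ hgen hntr
  have hvv : v = v' := by
    apply place_eq_of_le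
    intro u hu
    rw [← hv' u]
    exact (hw _).1 (hAB (Subring.subset_closure (Or.inr ⟨u, (hOm u).2 hu, rfl⟩)))
  refine ⟨w, hntr, fun u => ?_⟩
  rw [hv' u, hvv]

end

end Pool.Agent.Lib.MP_44a246_ntMB
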