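import Mathlib
import Pool.Agent.Lib.MP_44a246_ntMB.MB11
import Pool.Agent.Lib.MP_44a246_ntR.GR5

/-!
# Extension of the constants of a function field: the places
-/

namespace Pool.Agent.Lib.MP_44a246_ntMB

open Pool.Agent.Lib.MP_44a246_nt
open Pool.Agent.Lib.MP_44a246_ntL
open Pool.Agent.Lib.MP_44a246_ntR
open WithZero Module Polynomial

variable {κ₀ κ' L₀ L' : Type*} [Field κ₀] [IsAlgClosed κ₀] [CharZero κ₀] [Field κ'] [IsAlgClosed κ']
  [CharZero κ'] [Field L₀] [Field L'] [Algebra κ₀ κ'] [Algebra κ₀ L₀] [Algebra κ' L']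
  [Algebra L₀ L'] [Algebra κ₀ L'] [IsScalarTower κ₀ κ' L'] [IsScalarTower κ₀ L₀ L']

omit [IsAlgClosed κ₀] [CharZero κ₀] [IsAlgClosed κ'] [CharZero κ'] in
theorem IsCE.closure_top (h : IsCE κ₀ κ' L₀ L') :
    Subfield.closure (Set.range (algebraMap κ' L') ∪ Set.range (algebraMap L₀ L')) = ⊤ := by
  rw [eq_top_iff]
  intro x _
  have h1 : x ∈ IntermediateField.adjoin κ' (Set.range (algebraMap L₀ L')) := by
    rw [h.gen]
    exact IntermediateField.mem_top
  exact h1

omit [IsAlgClosed κ'] [CharZero κ'] in
theorem IsCE.isFF (h : IsCE κ₀ κ' L₀ L') : IsFF κ' L' := by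
  obtain ⟨t, ht⟩ := h.tr
  have ht0 : Transcendental κ₀ t := by
    intro halg
    apply ht
    have h1 : IsAlgebraic κ₀ (algebraMap L₀ L' t) := halg.algebraMap
    exact h1.tower_top κ'
  have hfd := finite_over_adjoin h.ff ht0
  refine ⟨algebraMap L₀ L' t, ht, ?_⟩
  let F₀ := IntermediateField.adjoin κ₀ {t}
  let F' := IntermediateField.adjoin κ' {algebraMap L₀ L' t}
  have hF : ∀ c ∈ F₀, algebraMap L₀ L' c ∈ F' := by
    intro c hc
    induction hc using IntermediateField.adjoin_induction with
    | mem x hx =>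
      rw [Set.mem_singleton_iff.1 hx]
      exact IntermediateField.mem_adjoin_simple_self κ' _
    | algebraMap x =>
      rw [← IsScalarTower.algebraMap_apply κ₀ L₀ L', IsScalarTower.algebraMap_apply κ₀ κ' L']
      exact F'.algebraMap_mem _
    | add x y _ _ hx hy => rw [map_add]; exact F'.add_mem hx hy
    | inv x _ hx => rw [map_inv₀]; exact F'.inv_mem hx
    | mul x y _ _ hx hy => rw [map_mul]; exact F'.mul_mem hx hy
  let φ : F₀ →+* F' :=
    { toFun := fun c => ⟨algebraMap L₀ L' c, hF c c.2⟩
      map_one' := by apply Subtype.ext; simp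
      map_zero' := by apply Subtype.ext; simp
      map_add' := fun x y => by apply Subtype.ext; simp
      map_mul' := fun x y => by apply Subtype.ext; simp }
  let e := Module.finBasis F₀ L₀
  have hint : ∀ i, IsIntegral F' (algebraMap L₀ L' (e i)) := by
    intro i
    exact IsIntegral.map_of_comp_eq φ (algebraMap L₀ L') (by ext x; rfl)
      (IsIntegral.of_finite F₀ (e i))
  have hfin : FiniteDimensional F'
      (IntermediateField.adjoin F' (Set.range fun i => algebraMap L₀ L' (e i))) := by
    have : Finite (Set.range fun i => algebraMap L₀ L' (e i)) := Set.finite_range _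
    refine IntermediateField.finiteDimensional_adjoin ?_
    rintro x ⟨i, rfl⟩
    exact hint i
  have htop : IntermediateField.adjoin F' (Set.range fun i => algebraMap L₀ L' (e i)) = ⊤ := by
    have h1 : IntermediateField.adjoin κ' (Set.range (algebraMap L₀ L')) ≤
        (IntermediateField.adjoin F'
          (Set.range fun i => algebraMap L₀ L' (e i))).restrictScalars κ' := by
      rw [IntermediateField.adjoin_le_iff]
      rintro x ⟨u, rfl⟩
      change algebraMap L₀ L' u ∈ IntermediateField.adjoin F' _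
      rw [← e.sum_repr u, map_sum]
      refine sum_mem fun i _ => ?_
      have h2 : algebraMap L₀ L' (e.repr u i • e i) =
          algebraMap F' L' (φ (e.repr u i)) * algebraMap L₀ L' (e i) := by
        rw [Algebra.smul_def, map_mul]
        rfl
      rw [h2]
      exact mul_mem (IntermediateField.algebraMap_mem _ _)
        (IntermediateField.subset_adjoin _ _ ⟨i, rfl⟩)
    rw [h.gen] at h1
    rw [eq_top_iff]
    intro x _
    exact h1 IntermediateField.mem_top
  rw [htop] at hfin
  exact Module.Finite.equiv (IntermediateField.topEquiv (F := F') (E := L')).toLinearEquiv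

/-- a place of `L'` which is not trivial on `L₀` exists -/
theorem IsCE.exists_ntr (h : IsCE κ₀ κ' L₀ L') : ∃ w : Place κ' L', Ntr L₀ w := by
  obtain ⟨t, ht⟩ := h.tr
  by_contra hcon
  push Not at hcon
  have ht0 : t ≠ 0 := by
    rintro rfl
    rw [map_zero] at ht
    exact ht isAlgebraic_zero
  obtain ⟨c, hc⟩ := const_of_rr_zero h.isFF (f := algebraMap L₀ L' t)
    (fun w => (eq_one_of_not_ntr (hcon w) ht0).le)
  exact ht (hc ▸ isAlgebraic_algebraMap c)

/-- Every place of `L₀` extends uniquely, with the same values, to a place of `L'`; the other places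
of `L'` are trivial on `L₀`. -/
theorem IsCE.exists_ext (h : IsCE κ₀ κ' L₀ L') :
    ∃ ext : Place κ₀ L₀ → Place κ' L', Function.Injective ext ∧
      (∀ v a, (ext v).1 (algebraMap L₀ L' a) = v.1 a) ∧
      ∀ w, w ∈ Set.range ext ∨ ∀ a ≠ 0, w.1 (algebraMap L₀ L' a) = 1 := by
  obtain ⟨w₀, hw₀⟩ := h.exists_ntr
  choose ext hntr hext using exists_ext_aux h.ff h.isFF h.closure_top hw₀
  refine ⟨ext, ?_, hext, fun w => ?_⟩
  · intro v v' hvv
    apply Subtype.ext
    apply Valuation.ext
    intro u
    rw [← hext v u, ← hext v' u, hvv]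
  · by_cases hw : Ntr L₀ w
    · left
      obtain ⟨v, hv⟩ := exists_res h.ff h.closure_top hw
      refine ⟨v, ntr_unique h.ff h.closure_top (hntr v) hw fun z => ?_⟩
      rw [hext v z, hv z]
    · right
      intro a ha
      exact eq_one_of_not_ntr hw ha

end Pool.Agent.Lib.MP_44a246_ntMB
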