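import Mathlib
import Pool.Agent.Lib.MP_44a246_ntMY.MY00

/-!
# Extension of the constants of a function field (paper 705, part (B)): definition

`κ₀ ⊆ κ'` algebraically closed fields of characteristic zero, `L₀` a function field over `κ₀`,
`L'` a field which is generated by `κ'` and `L₀`, in which a function `t ∈ L₀` is transcendental
over `κ'`.
-/

namespace Pool.Agent.Lib.MP_44a246_ntMB

open Pool.Agent.Lib.MP_44a246_nt
open Pool.Agent.Lib.MP_44a246_ntL
open WithZero Module Polynomial

/-- `L'` is obtained from the function field `L₀` over `κ₀` by extension of the constants to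
`κ'` -/
structure IsCE (κ₀ κ' L₀ L' : Type*) [Field κ₀] [Field κ'] [Field L₀] [Field L'] [Algebra κ₀ κ']
    [Algebra κ₀ L₀] [Algebra κ' L'] [Algebra L₀ L'] [Algebra κ₀ L'] [IsScalarTower κ₀ κ' L']
    [IsScalarTower κ₀ L₀ L'] : Prop where
  ff : IsFF κ₀ L₀
  gen : IntermediateField.adjoin κ' (Set.range (algebraMap L₀ L')) = ⊤
  tr : ∃ t : L₀, Transcendental κ' (algebraMap L₀ L' t)

end Pool.Agent.Lib.MP_44a246_ntMB
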