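import Mathlib
import Pool.Agent.Lib.MP_44a246_ntMB.MB00

/-!
# Existence of the extension of the constants
-/

namespace Pool.Agent.Lib.MP_44a246_ntMB

open Pool.Agent.Lib.MP_44a246_nt
open Pool.Agent.Lib.MP_44a246_ntL
open WithZero Module Polynomial

universe u v w

/-- a countable field of characteristic zero embeds into `ℂ` -/
theorem exists_hom_complex (κ₀ : Type u) [Field κ₀] [CharZero κ₀] [Countable κ₀] :
    Nonempty (κ₀ →+* ℂ) := by
  classical
  obtain ⟨s, hs⟩ := exists_isTranscendenceBasis ℚ κ₀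
  obtain ⟨t, ht⟩ := exists_isTranscendenceBasis ℚ ℂ
  have h1 := IsAlgClosed.cardinal_eq_cardinal_transcendence_basis_of_aleph0_lt _ ht
    (Cardinal.mk_le_aleph0 (α := ℚ)) (by rw [Cardinal.mk_complex]; exact Cardinal.aleph0_lt_continuum)
  have h2 : Infinite t := by
    rw [← Cardinal.aleph0_le_mk_iff]
    have h3 : Cardinal.mk ℂ = Cardinal.mk t := by simpa using h1
    rw [← h3, Cardinal.mk_complex]
    exact Cardinal.aleph0_le_continuum
  obtain ⟨e₁⟩ : Nonempty (s ↪ ℕ) := nonempty_embedding_nat s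
  obtain ⟨e, he⟩ : ∃ e : s → t, Function.Injective e :=
    ⟨fun i => Infinite.natEmbedding t (e₁ i), fun i j h =>
      e₁.injective ((Infinite.natEmbedding t).injective h)⟩
  have h3 : AlgebraicIndependent ℚ (fun i : s => ((e i : t) : ℂ)) := ht.1.comp e he
  let f : Algebra.adjoin ℚ (Set.range (Subtype.val : s → κ₀)) →ₐ[ℚ] ℂ :=
    (MvPolynomial.aeval fun i : s => ((e i : t) : ℂ)).comp hs.1.aevalEquiv.symm.toAlgHom
  have hf : Function.Injective f := by
    have h4 : Function.Injective (MvPolynomial.aeval (R := ℚ) fun i : s => ((e i : t) : ℂ)) := h3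
    exact h4.comp hs.1.aevalEquiv.symm.injective
  let a1 : Algebra (Algebra.adjoin ℚ (Set.range (Subtype.val : s → κ₀))) ℂ := f.toRingHom.toAlgebra
  have hfa : FaithfulSMul (Algebra.adjoin ℚ (Set.range (Subtype.val : s → κ₀))) ℂ :=
    (faithfulSMul_iff_algebraMap_injective _ _).2 hf
  have halg : Algebra.IsAlgebraic (Algebra.adjoin ℚ (Set.range (Subtype.val : s → κ₀))) κ₀ :=
    hs.isAlgebraic
  exact ⟨(IsAlgClosed.lift (R := Algebra.adjoin ℚ (Set.range (Subtype.val : s → κ₀))) (S := κ₀)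
    (M := ℂ)).toRingHom⟩

/-- the extension of the constants exists: the compositum of `κ' (t)` and `L₀` in an algebraic
closure of `κ' (t)` -/
theorem exists_CE (κ₀ : Type u) (κ' : Type v) [Field κ₀] [IsAlgClosed κ₀] [CharZero κ₀] [Field κ']
    [IsAlgClosed κ'] [CharZero κ'] [Algebra κ₀ κ'] (L₀ : Type w) [Field L₀] [Algebra κ₀ L₀]
    [Algebra (RatFunc κ₀) L₀] [IsScalarTower κ₀ (RatFunc κ₀) L₀]
    [FiniteDimensional (RatFunc κ₀) L₀] :
    ∃ (L' : Type v) (_ : Field L') (_ : Algebra κ' L') (_ : Algebra L₀ L') (_ : Algebra κ₀ L')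
      (_ : IsScalarTower κ₀ κ' L') (_ : IsScalarTower κ₀ L₀ L') (_ : Algebra (RatFunc κ') L')
      (_ : IsScalarTower κ' (RatFunc κ') L') (_ : FiniteDimensional (RatFunc κ') L'),
      IsCE κ₀ κ' L₀ L' ∧ algebraMap L₀ L' (algebraMap (RatFunc κ₀) L₀ RatFunc.X) =
        algebraMap (RatFunc κ') L' RatFunc.X := by
  classical
  -- the fields of rational functions
  have hinj : Function.Injective (Polynomial.mapRingHom (algebraMap κ₀ κ')) :=
    Polynomial.map_injective _ (algebraMap κ₀ κ').injective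
  let g : κ₀[X] →+* RatFunc κ' := (algebraMap κ'[X] (RatFunc κ')).comp
    (Polynomial.mapRingHom (algebraMap κ₀ κ'))
  have hg : Function.Injective g := (RatFunc.algebraMap_injective κ').comp hinj
  let G : RatFunc κ₀ →+* RatFunc κ' := IsFractionRing.lift hg
  have hG : ∀ p : κ₀[X], G (algebraMap κ₀[X] (RatFunc κ₀) p) =
      algebraMap κ'[X] (RatFunc κ') (p.map (algebraMap κ₀ κ')) := fun p =>
    IsFractionRing.lift_algebraMap hg p
  have hGX : G RatFunc.X = RatFunc.X := by
    rw [← RatFunc.algebraMap_X, hG, Polynomial.map_X, RatFunc.algebraMap_X]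
  have hGC : ∀ c : κ₀, G (algebraMap κ₀ (RatFunc κ₀) c) =
      algebraMap κ' (RatFunc κ') (algebraMap κ₀ κ' c) := by
    intro c
    have e1 : algebraMap κ₀ (RatFunc κ₀) c = algebraMap κ₀[X] (RatFunc κ₀) (Polynomial.C c) := rfl
    rw [e1, hG, Polynomial.map_C]
    rfl
  obtain ⟨Ω, iΩ, aΩ, hΩ⟩ : ∃ (Ω : Type v) (_ : Field Ω) (_ : Algebra (RatFunc κ') Ω),
      IsAlgClosed Ω := ⟨AlgebraicClosure (RatFunc κ'), inferInstance, inferInstance, inferInstance⟩
  let a1 : Algebra (RatFunc κ₀) Ω := ((algebraMap (RatFunc κ') Ω).comp G).toAlgebra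
  have halg : Algebra.IsAlgebraic (RatFunc κ₀) L₀ := Algebra.IsAlgebraic.of_finite _ _
  obtain ⟨j⟩ : Nonempty (L₀ →ₐ[RatFunc κ₀] Ω) := ⟨IsAlgClosed.lift⟩
  have hj : ∀ c : RatFunc κ₀, j (algebraMap (RatFunc κ₀) L₀ c) = algebraMap (RatFunc κ') Ω (G c) :=
    fun c => j.commutes c
  let L' : IntermediateField (RatFunc κ') Ω := IntermediateField.adjoin (RatFunc κ') (Set.range j)
  have hjL : ∀ x : L₀, j x ∈ L' := fun x => IntermediateField.subset_adjoin _ _ ⟨x, rfl⟩
  let J : L₀ →+* L' := j.toRingHom.codRestrict L'.toSubring hjL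
  have hJ : ∀ x : L₀, ((J x : L') : Ω) = j x := fun x => rfl
  let a2 : Algebra L₀ L' := J.toAlgebra
  let a3 : Algebra κ' L' := ((algebraMap (RatFunc κ') L').comp (algebraMap κ' (RatFunc κ'))).toAlgebra
  let a4 : Algebra κ₀ L' := ((algebraMap κ' L').comp (algebraMap κ₀ κ')).toAlgebra
  have t1 : IsScalarTower κ₀ κ' L' := IsScalarTower.of_algebraMap_eq fun _ => rfl
  have t2 : IsScalarTower κ' (RatFunc κ') L' := IsScalarTower.of_algebraMap_eq fun _ => rfl
  have t3 : IsScalarTower κ₀ L₀ L' := by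
    refine IsScalarTower.of_algebraMap_eq fun c => ?_
    apply Subtype.ext
    have e1 : ((algebraMap L₀ L' (algebraMap κ₀ L₀ c) : L') : Ω) = j (algebraMap κ₀ L₀ c) := rfl
    have e2 : ((algebraMap κ₀ L' c : L') : Ω) =
        algebraMap (RatFunc κ') Ω (algebraMap κ' (RatFunc κ') (algebraMap κ₀ κ' c)) := rfl
    rw [e1, e2, IsScalarTower.algebraMap_apply κ₀ (RatFunc κ₀) L₀, hj, hGC]
  -- finite dimension
  have hfd : FiniteDimensional (RatFunc κ') L' := by
    let b := Module.finBasis (RatFunc κ₀) L₀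
    have h1 : L' ≤ IntermediateField.adjoin (RatFunc κ') (Set.range fun i => j (b i)) := by
      refine IntermediateField.adjoin_le_iff.2 ?_
      rintro _ ⟨x, rfl⟩
      rw [← b.sum_repr x, map_sum]
      refine sum_mem fun i _ => ?_
      rw [Algebra.smul_def, map_mul, hj]
      exact mul_mem (IntermediateField.algebraMap_mem _ _)
        (IntermediateField.subset_adjoin _ _ ⟨i, rfl⟩)
    have h2 : FiniteDimensional (RatFunc κ')
        (IntermediateField.adjoin (RatFunc κ') (Set.range fun i => j (b i))) := by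
      refine IntermediateField.finiteDimensional_adjoin ?_
      rintro _ ⟨i, rfl⟩
      have h3 : IsIntegral (RatFunc κ₀) (b i) := (halg.isAlgebraic (b i)).isIntegral
      obtain ⟨p, hp, hp0⟩ := h3
      refine ⟨p.map G, hp.map G, ?_⟩
      rw [Polynomial.eval₂_map]
      have h4 := Polynomial.hom_eval₂ p (algebraMap (RatFunc κ₀) L₀) j.toRingHom (b i)
      rw [hp0, map_zero] at h4
      have h5 : j.toRingHom.comp (algebraMap (RatFunc κ₀) L₀) =
          (algebraMap (RatFunc κ') Ω).comp G := RingHom.ext hj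
      rw [h5] at h4
      exact h4.symm
    exact FiniteDimensional.of_injective (IntermediateField.inclusion h1).toLinearMap
      (IntermediateField.inclusion_injective h1)
  have hX : algebraMap L₀ L' (algebraMap (RatFunc κ₀) L₀ RatFunc.X) =
      algebraMap (RatFunc κ') L' RatFunc.X := by
    apply Subtype.ext
    have e1 : ((algebraMap L₀ L' (algebraMap (RatFunc κ₀) L₀ RatFunc.X) : L') : Ω) =
      j (algebraMap (RatFunc κ₀) L₀ RatFunc.X) := rfl
    rw [e1, hj, hGX]
    rfl
  refine ⟨L', inferInstance, a3, a2, a4, t1, t3, inferInstance, t2, hfd, ⟨?_, ?_, ?_⟩, hX⟩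
  · exact Pool.Agent.Lib.MP_44a246_ntR.isFF_of_ratFunc κ₀ L₀
  · rw [eq_top_iff]
    obtain ⟨A, hA⟩ : ∃ A : IntermediateField κ' L',
      A = IntermediateField.adjoin κ' (Set.range (algebraMap L₀ L')) := ⟨_, rfl⟩
    rw [← hA]
    have hA1 : ∀ x : L₀, algebraMap L₀ L' x ∈ A := fun x => by
      rw [hA]
      exact IntermediateField.subset_adjoin _ _ ⟨x, rfl⟩
    have hA2 : ∀ p : κ'[X], algebraMap (RatFunc κ') L' (algebraMap κ'[X] (RatFunc κ') p) ∈ A := by
      intro p
      induction p using Polynomial.induction_on' with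
      | add p q hp hq =>
        rw [map_add, map_add]
        exact add_mem hp hq
      | monomial n c =>
        rw [← C_mul_X_pow_eq_monomial, map_mul, map_mul, map_pow, map_pow, RatFunc.algebraMap_X,
          ← hX]
        refine mul_mem ?_ (pow_mem (hA1 _) _)
        exact A.algebraMap_mem c
    have hA3 : ∀ r : RatFunc κ', algebraMap (RatFunc κ') L' r ∈ A := by
      intro r
      rw [← RatFunc.num_div_denom r, map_div₀]
      exact div_mem (hA2 _) (hA2 _)
    rintro ⟨x, hx⟩ -
    refine IntermediateField.adjoin_induction (RatFunc κ') (s := Set.range j)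
      (p := fun y hy => (⟨y, hy⟩ : L') ∈ A) ?_ ?_ ?_ ?_ ?_ hx
    · rintro _ ⟨y, rfl⟩
      exact hA1 y
    · intro r
      exact hA3 r
    · intro y z hy hz h1 h2
      exact add_mem h1 h2
    · intro y hy h1
      exact inv_mem h1
    · intro y z hy hz h1 h2
      exact mul_mem h1 h2
  · refine ⟨algebraMap (RatFunc κ₀) L₀ RatFunc.X, ?_⟩
    rw [hX]
    exact Pool.Agent.Lib.MP_44a246_ntR.transcendental_tL

end Pool.Agent.Lib.MP_44a246_ntMB
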