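import Mathlib
import Pool.Agent.Lib.MP_44a246_ntMB.MB10
import Pool.Agent.Lib.MP_44a246_ntR.GR3

/-!
# Extension of the constants of a function field: heights, meeting places, degrees
-/

namespace Pool.Agent.Lib.MP_44a246_ntMB

open Pool.Agent.Lib.MP_44a246_nt
open Pool.Agent.Lib.MP_44a246_ntL
open Pool.Agent.Lib.MP_44a246_ntR
open Pool.Agent.Lib.MP_44a246_ntMY
open WithZero Module Polynomial

variable {κ₀ κ' L₀ L' : Type*} [Field κ₀] [IsAlgClosed κ₀] [CharZero κ₀] [Field κ'] [IsAlgClosed κ']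
  [CharZero κ'] [Field L₀] [Field L'] [Algebra κ₀ κ'] [Algebra κ₀ L₀] [Algebra κ' L']
  [Algebra L₀ L'] [Algebra κ₀ L'] [IsScalarTower κ₀ κ' L'] [IsScalarTower κ₀ L₀ L']

theorem IsCE.height_eq (h : IsCE κ₀ κ' L₀ L') {σ : Type*} [Fintype σ] {x : σ → L₀} (hx : x ≠ 0) :
    height κ' (fun i => algebraMap L₀ L' (x i)) = height κ₀ x := by
  obtain ⟨ext, hinj, hext, hdich⟩ := h.exists_ext
  unfold height
  have h1 : ∀ w : Place κ' L', w ∈ Function.support (fun w : Place κ' L' =>
      log (vmax w.1 fun i => algebraMap L₀ L' (x i))) → (w ∈ Set.univ ↔ w ∈ Set.range ext) := by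
    intro w hw
    refine ⟨fun _ => ?_, fun _ => Set.mem_univ _⟩
    rcases hdich w with h2 | h2
    · exact h2
    · exfalso
      apply hw
      have h3 : vmax w.1 (fun i => algebraMap L₀ L' (x i)) = 1 := by
        apply le_antisymm
        · apply vmax_le
          intro i
          by_cases h0 : x i = 0
          · rw [h0, map_zero, map_zero]
            exact zero_le_one
          · exact (h2 _ h0).le
        · obtain ⟨i, hi⟩ := Function.ne_iff.mp hx
          exact (h2 _ hi).ge.trans (le_vmax w.1 (fun i => algebraMap L₀ L' (x i)) i)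
      show log _ = 0
      rw [h3, log_one]
  rw [← finsum_mem_univ, finsum_mem_inter_support_eq' _ _ _ h1, finsum_mem_range hinj]
  refine finsum_congr fun v => ?_
  congr 1
  unfold vmax
  exact Finset.sup_congr rfl fun i _ => hext v (x i)

theorem IsCE.ncard_meets (h : IsCE κ₀ κ' L₀ L') {q : ℕ} {x : L₀} {b : Fin q → L₀}
    (hb : ∀ v, b v ≠ x) :
    Set.ncard {w : Place κ' L' | ∃ v, Meets w (algebraMap L₀ L' x) (algebraMap L₀ L' (b v))} =
      Set.ncard {w : Place κ₀ L₀ | ∃ v, Meets w x (b v)} := by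
  obtain ⟨ext, hinj, hext, hdich⟩ := h.exists_ext
  have h1 : {w : Place κ' L' | ∃ v, Meets w (algebraMap L₀ L' x) (algebraMap L₀ L' (b v))} =
      ext '' {w : Place κ₀ L₀ | ∃ v, Meets w x (b v)} := by
    ext w
    constructor
    · rintro ⟨v, hv⟩
      rcases hdich w with ⟨w₀, rfl⟩ | h2
      · refine ⟨w₀, ⟨v, ?_⟩, rfl⟩
        unfold Meets at hv ⊢
        rwa [← map_sub, hext, hext, hext] at hv
      · exfalso
        unfold Meets at hv
        rw [← map_sub, h2 _ (sub_ne_zero.mpr (hb v).symm)] at hv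
        have h3 : ∀ a : L₀, max 1 (w.1 (algebraMap L₀ L' a)) = 1 := by
          intro a
          by_cases h0 : a = 0
          · rw [h0, map_zero, map_zero]
            exact max_eq_left zero_le_one
          · rw [h2 _ h0, max_self]
        rw [h3, h3, mul_one] at hv
        exact lt_irrefl _ hv
    · rintro ⟨w₀, ⟨v, hv⟩, rfl⟩
      refine ⟨v, ?_⟩
      unfold Meets at hv ⊢
      rwa [← map_sub, hext, hext, hext]
  rw [h1, Set.ncard_image_of_injective _ hinj]

theorem IsCE.finrank_eq (h : IsCE κ₀ κ' L₀ L') [Algebra (RatFunc κ₀) L₀]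
    [IsScalarTower κ₀ (RatFunc κ₀) L₀] [FiniteDimensional (RatFunc κ₀) L₀] [Algebra (RatFunc κ') L']
    [IsScalarTower κ' (RatFunc κ') L'] [FiniteDimensional (RatFunc κ') L']
    (ht : algebraMap L₀ L' (algebraMap (RatFunc κ₀) L₀ RatFunc.X) =
      algebraMap (RatFunc κ') L' RatFunc.X) :
    finrank (RatFunc κ') L' = finrank (RatFunc κ₀) L₀ := by
  have h1 := finrank_eq_height κ₀ L₀
  have h2 := finrank_eq_height κ' L'
  have hx : (![1, tL κ₀ L₀]) ≠ 0 := by
    intro h
    have := congrFun h 0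
    simp at this
  have h3 := h.height_eq hx
  have h4 : (fun i => algebraMap L₀ L' ((![1, tL κ₀ L₀] : Fin 2 → L₀) i)) = ![1, tL κ' L'] := by
    funext i
    fin_cases i
    · exact map_one _
    · exact ht
  rw [h4, ← h1, ← h2] at h3
  exact_mod_cast h3

end Pool.Agent.Lib.MP_44a246_ntMB
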