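import Mathlib
import Pool.Agent.Lib.MP_44a246_ntMB.MB10
import Pool.Agent.Lib.MP_44a246_ntE.E01
import Pool.Agent.Lib.MP_44a246_ntS.SP1b
import Pool.Agent.Lib.MP_44a246_ntR.GR3
import Pool.Agent.Lib.MP_44a246_ntR.GR5

/-!
# The derivation `d / dt` and the ramification over `κ (t)`, for every `κ`
-/

namespace Pool.Agent.Lib.MP_44a246_ntMB

open Pool.Agent.Lib.MP_e52354_nt
open Pool.Agent.Lib.MP_44a246_nt
open Pool.Agent.Lib.MP_44a246_ntL
open Pool.Agent.Lib.MP_44a246_ntR
open Pool.Agent.Lib.MP_44a246_ntS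
open Pool.Agent.Lib.MP_44a246_ntE
open WithZero Module Polynomial

section

variable {κ L : Type*} [Field κ] [IsAlgClosed κ] [CharZero κ] [Field L] [Algebra κ L]
  [Algebra (RatFunc κ) L] [IsScalarTower κ (RatFunc κ) L]
  [FiniteDimensional (RatFunc κ) L]

omit [IsAlgClosed κ] [CharZero κ] [FiniteDimensional (RatFunc κ) L] in
/-- the auxiliary algebra structures -/
private theorem mb31_ind {P : Prop}
    (h : ∀ (_ : Algebra κ[X] L) (_ : IsScalarTower κ κ[X] L)
      (_ : IsScalarTower κ[X] (RatFunc κ) L)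
      (_ : Algebra (Rinf κ) L) (_ : IsScalarTower (Rinf κ) (RatFunc κ) L), P) : P := by
  let iX : Algebra κ[X] L :=
    ((algebraMap (RatFunc κ) L).comp (algebraMap κ[X] (RatFunc κ))).toAlgebra
  let iR : Algebra (Rinf κ) L :=
    ((algebraMap (RatFunc κ) L).comp (algebraMap (Rinf κ) (RatFunc κ))).toAlgebra
  have t1 : IsScalarTower κ[X] (RatFunc κ) L := IsScalarTower.of_algebraMap_eq' rfl
  have t2 : IsScalarTower (Rinf κ) (RatFunc κ) L := IsScalarTower.of_algebraMap_eq' rfl
  have t3 : IsScalarTower κ κ[X] L := IsScalarTower.of_algebraMap_eq fun u => by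
    rw [IsScalarTower.algebraMap_apply κ (RatFunc κ) L, IsScalarTower.algebraMap_apply κ[X]
      (RatFunc κ) L, ← IsScalarTower.algebraMap_apply κ κ[X] (RatFunc κ)]
  exact h iX t3 t1 iR t2

/-- the derivation over the integers -/
private def mb31_D (D : Derivation κ L L) : Derivation ℤ L L :=
  Derivation.mk' (D.toLinearMap.restrictScalars ℤ) (fun a b => Derivation.leibniz D a b)

/-- the derivation `d / dt` and the ramification: a regular function has a derivative with a pole of
order at most `e - 1` -/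
theorem der_leκ {D : Derivation κ L L}
    (hD : D (algebraMap (RatFunc κ) L RatFunc.X) = 1) (w : Place κ L) {f : L} (hf : w.1 f ≤ 1) :
    w.1 (D f) ≤ exp ((ramIdx (RatFunc κ) w.1 : ℤ) - 1) := by
  refine mb31_ind (κ := κ) (L := L) ?_
  intro iX t3 t1 iR t2
  have hX : algebraMap κ[X] L X = algebraMap (RatFunc κ) L RatFunc.X := by
    rw [IsScalarTower.algebraMap_apply κ[X] (RatFunc κ) L, RatFunc.algebraMap_X]
  have h := der_place w (mb31_D D) (fun u => ⟨0, by
    rw [map_zero]
    exact D.map_algebraMap u⟩) ⟨1, by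
    rw [map_one, hX]
    exact hD⟩ hf
  have h1 := one_le_ramIdx (K := RatFunc κ) w.1 w.2.1
  have h2 : ((ramIdx (RatFunc κ) w.1 - 1 : ℕ) : ℤ) = (ramIdx (RatFunc κ) w.1 : ℤ) - 1 := by
    omega
  rw [h2] at h
  exact h

/-- the derivation exists -/
theorem exists_derκ :
    ∃ D : Derivation κ L L, D (algebraMap (RatFunc κ) L RatFunc.X) = 1 := by
  set t : L := algebraMap (RatFunc κ) L RatFunc.X with ht
  have hL : IsFF κ L := isFF_of_ratFunc κ L
  have htr : Transcendental κ t := transcendental_tL (κ := κ) (L := L)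
  have hind : AlgebraicIndependent κ (fun _ : Unit => t) :=
    algebraicIndependent_unique_type_iff.mpr htr
  have halg := alg_over_adjoin hL htr
  have halg2 : Algebra.IsAlgebraic (Algebra.adjoin κ (Set.range fun _ : Unit => t)) L := by
    rw [Set.range_const]
    exact ⟨fun y => IntermediateField.isAlgebraic_adjoin_iff.mp (halg.isAlgebraic y)⟩
  obtain ⟨D, hD⟩ := exists_derivation hind (fun _ => (1 : L))
  exact ⟨D, hD ()⟩

omit [IsAlgClosed κ] [CharZero κ] [Algebra (RatFunc κ) L] [IsScalarTower κ (RatFunc κ) L]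
  [FiniteDimensional (RatFunc κ) L] in
theorem constκ_le (w : Place κ L) (c : κ) : w.1 (algebraMap κ L c) ≤ 1 := by
  by_cases h0 : c = 0
  · rw [h0, map_zero, map_zero]
    exact zero_le
  · exact (w.2.2 _ h0).le

omit [CharZero κ] [IsAlgClosed κ] [Algebra (RatFunc κ) L] [IsScalarTower κ (RatFunc κ) L]
  [FiniteDimensional (RatFunc κ) L] in
/-- the values of the rational functions at a place which is not a pole of `t` -/
theorem val_polyκ (w : Place κ L) {t : L} {c : κ} (hc : w.1 (t - algebraMap κ L c) < 1)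
    {p : κ[X]} (hp : p ≠ 0) :
    ∃ n : ℕ, w.1 (aeval t p) = w.1 (t - algebraMap κ L c) ^ n := by
  obtain ⟨r, hr, hr2⟩ := exists_eq_pow_rootMultiplicity_mul_and_not_dvd p hp c
  refine ⟨p.rootMultiplicity c, ?_⟩
  have h1 : r.eval c ≠ 0 := by
    intro h
    exact hr2 (dvd_iff_isRoot.mpr h)
  obtain ⟨r₁, hr₁⟩ : (X - C c) ∣ r - C (r.eval c) := by
    apply dvd_iff_isRoot.mpr
    simp
  have ht : w.1 t ≤ 1 := by
    have e : t = (t - algebraMap κ L c) + algebraMap κ L c := by ring
    rw [e]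
    exact (w.1.map_add _ _).trans (max_le hc.le (constκ_le w c))
  have hint : ∀ s : κ[X], w.1 (aeval t s) ≤ 1 := by
    intro s
    induction s using Polynomial.induction_on' with
    | add a b ha hb =>
      rw [map_add]
      exact (w.1.map_add _ _).trans (max_le ha hb)
    | monomial n a =>
      rw [aeval_monomial, map_mul, map_pow]
      exact mul_le_one' (constκ_le w a) (pow_le_one' ht n)
  have h2 : w.1 (aeval t r) = 1 := by
    have e : aeval t r = (t - algebraMap κ L c) * aeval t r₁ + algebraMap κ L (r.eval c) := by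
      have := congrArg (aeval t) hr₁
      rw [map_sub, map_mul, map_sub, aeval_X, aeval_C, aeval_C] at this
      rw [← this]
      ring
    rw [e, Valuation.map_add_eq_of_lt_right w.1, w.2.2 _ h1]
    rw [w.2.2 _ h1, map_mul]
    calc w.1 (t - algebraMap κ L c) * w.1 (aeval t r₁) ≤ w.1 (t - algebraMap κ L c) * 1 :=
          mul_le_mul' le_rfl (hint _)
      _ < 1 := by rwa [mul_one]
  conv_lhs => rw [hr]
  rw [map_mul, map_pow, map_sub, aeval_X, aeval_C, map_mul, map_pow, h2, mul_one]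

omit [IsAlgClosed κ] [CharZero κ] [FiniteDimensional (RatFunc κ) L] in
theorem algebraMap_polyκ (p : κ[X]) :
    algebraMap (RatFunc κ) L (algebraMap κ[X] (RatFunc κ) p) =
      aeval (algebraMap (RatFunc κ) L RatFunc.X) p := by
  rw [aeval_algebraMap_apply]
  congr 1
  have h := aeval_algebraMap_apply (A := κ[X]) (RatFunc κ) (X : κ[X]) p
  rw [RatFunc.algebraMap_X, aeval_X_left_apply] at h
  exact h.symm

omit [IsAlgClosed κ] [CharZero κ] [FiniteDimensional (RatFunc κ) L] in
theorem algebraMap_ratκ (s : RatFunc κ) :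
    algebraMap (RatFunc κ) L s = aeval (algebraMap (RatFunc κ) L RatFunc.X) s.num /
      aeval (algebraMap (RatFunc κ) L RatFunc.X) s.denom := by
  conv_lhs => rw [← RatFunc.num_div_denom s]
  rw [map_div₀, algebraMap_polyκ, algebraMap_polyκ]

/-- the ramification index at a zero of `t - c` is the order of this zero -/
theorem val_sub_const (w : Place κ L) {c : κ}
    (hc : w.1 (algebraMap (RatFunc κ) L RatFunc.X - algebraMap κ L c) < 1) :
    w.1 (algebraMap (RatFunc κ) L RatFunc.X - algebraMap κ L c) =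
      exp (-(ramIdx (RatFunc κ) w.1 : ℤ)) := by
  set t : L := algebraMap (RatFunc κ) L RatFunc.X with htdef
  have htr : Transcendental κ t := transcendental_tL (κ := κ) (L := L)
  have htc : t - algebraMap κ L c ≠ 0 := by
    intro h
    exact htr (by rw [sub_eq_zero.1 h]; exact isAlgebraic_algebraMap c)
  have h0 : w.1 (t - algebraMap κ L c) ≠ 0 := (w.1.ne_zero_iff).2 htc
  obtain ⟨s, hs⟩ := exists_ramIdx (K := RatFunc κ) w.1 w.2.1
  have hs0 : s ≠ 0 := by
    rintro rfl
    rw [map_zero, map_zero] at hs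
    exact exp_ne_zero hs.symm
  obtain ⟨n, hn⟩ := val_polyκ w hc (RatFunc.num_ne_zero hs0)
  obtain ⟨m, hm⟩ := val_polyκ w hc (RatFunc.denom_ne_zero s)
  rw [algebraMap_ratκ, ← htdef, map_div₀, hn, hm] at hs
  have h2 := congrArg log hs
  rw [log_exp, log_div (pow_ne_zero _ h0) (pow_ne_zero _ h0), log_pow, log_pow, nsmul_eq_mul,
    nsmul_eq_mul] at h2
  have h3 : log (w.1 (t - algebraMap κ L c)) < log 1 := (log_lt_log h0 one_ne_zero).mpr hc
  rw [log_one] at h3
  obtain ⟨l, hl⟩ : ∃ l, l = log (w.1 (t - algebraMap κ L c)) := ⟨_, rfl⟩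
  rw [← hl] at h2 h3
  have he := one_le_ramIdx (K := RatFunc κ) w.1 w.2.1
  have h4 : ramIdx (RatFunc κ) w.1 ≤ (-l).toNat := by
    refine Nat.sInf_le ⟨by omega, RatFunc.X - algebraMap κ (RatFunc κ) c, ?_⟩
    rw [map_sub, ← IsScalarTower.algebraMap_apply κ (RatFunc κ) L, ← htdef, ← exp_log h0, ← hl]
    congr 1
    omega
  have h5 : (-l) ∣ (ramIdx (RatFunc κ) w.1 : ℤ) := ⟨(n : ℤ) - m, by push_cast at h2; linarith⟩
  have h6 : -l ≤ (ramIdx (RatFunc κ) w.1 : ℤ) := Int.le_of_dvd (by omega) h5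
  have h7 : l = -(ramIdx (RatFunc κ) w.1 : ℤ) := by omega
  rw [← exp_log h0, ← hl, h7]

/-- the value of the derivative of a function whose order is not a multiple of the ramification
index -/
theorem val_derκ {D : Derivation κ L L}
    (hD : D (algebraMap (RatFunc κ) L RatFunc.X) = 1) (w : Place κ L) {c : κ}
    (hc : w.1 (algebraMap (RatFunc κ) L RatFunc.X - algebraMap κ L c) < 1) {g : L} (hg : g ≠ 0)
    (hm : log (w.1 g) ≠ 0) :
    w.1 (D g) = w.1 g * exp (ramIdx (RatFunc κ) w.1 : ℤ) := by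
  have hval := val_sub_const w hc
  set t : L := algebraMap (RatFunc κ) L RatFunc.X with htdef
  obtain ⟨e, he⟩ : ∃ e, e = ramIdx (RatFunc κ) w.1 := ⟨_, rfl⟩
  have he1 : 1 ≤ e := by rw [he]; exact one_le_ramIdx (K := RatFunc κ) w.1 w.2.1
  rw [← he] at hval ⊢
  obtain ⟨m, hmdef⟩ : ∃ m, m = log (w.1 g) := ⟨_, rfl⟩
  have hg0 : w.1 g ≠ 0 := (w.1.ne_zero_iff).2 hg
  have hgm : w.1 g = exp m := by rw [hmdef, exp_log hg0]
  obtain ⟨z, hz⟩ : ∃ z, z = t - algebraMap κ L c := ⟨_, rfl⟩
  rw [← hz] at hval hc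
  have hz0 : z ≠ 0 := by
    rintro h0
    rw [h0, map_zero] at hval
    exact exp_ne_zero hval.symm
  have hDz : D z = 1 := by
    rw [hz, map_sub, hD, Derivation.map_algebraMap, sub_zero]
  obtain ⟨u, hu⟩ : ∃ u, u = g ^ (e : ℤ) * z ^ m := ⟨_, rfl⟩
  have hu1 : w.1 u = 1 := by
    rw [hu, map_mul, map_zpow₀, map_zpow₀, hgm, hval, ← exp_zsmul, ← exp_zsmul, ← exp_add,
      ← exp_zero]
    congr 1
    simp only [smul_eq_mul]
    ring
  have hDu := der_leκ hD w hu1.le
  rw [← he] at hDu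
  have hcL : CharZero L := charZero_of_injective_algebraMap (algebraMap κ L).injective
  have heL : (e : L) ≠ 0 := by
    rw [Nat.cast_ne_zero]
    omega
  have hu0 : u ≠ 0 := by
    intro h0
    rw [h0, map_zero] at hu1
    exact zero_ne_one hu1
  have hform : D u = u * ((e : L) * (D g / g) + (m : L) * z⁻¹) := by
    rw [hu, Derivation.leibniz, Derivation.leibniz_zpow, Derivation.leibniz_zpow, hDz]
    simp only [smul_eq_mul, zsmul_eq_mul, Int.cast_natCast, mul_one]
    rw [zpow_sub_one₀ hg, zpow_sub_one₀ hz0]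
    field_simp
    ring
  have hform2 : D g / g = (e : L)⁻¹ * (D u / u - (m : L) * z⁻¹) := by
    rw [hform]
    field_simp
    ring
  have hmL : w.1 (m : L) = 1 := by
    have e1 : (m : L) = algebraMap κ L (m : κ) := by rw [map_intCast]
    rw [e1]
    apply w.2.2
    rw [Int.cast_ne_zero, hmdef]
    exact hm
  have heL1 : w.1 (e : L) = 1 := by
    have e1 : (e : L) = algebraMap κ L (e : κ) := by rw [map_natCast]
    rw [e1]
    apply w.2.2
    rw [Nat.cast_ne_zero]
    omega
  have h1 : w.1 ((m : L) * z⁻¹) = exp (e : ℤ) := by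
    rw [map_mul, hmL, one_mul, map_inv₀, hval, ← exp_neg, neg_neg]
  have h2 : w.1 (D u / u) < w.1 ((m : L) * z⁻¹) := by
    rw [h1, map_div₀, hu1, div_one]
    refine hDu.trans_lt ?_
    rw [exp_lt_exp]
    omega
  have h3 : w.1 (D u / u - (m : L) * z⁻¹) = exp (e : ℤ) := by
    rw [Valuation.map_sub_swap, sub_eq_add_neg, Valuation.map_add_eq_of_lt_left, h1]
    rw [Valuation.map_neg]
    exact h2
  have h4 : w.1 (D g / g) = exp (e : ℤ) := by
    rw [hform2, map_mul, map_inv₀, heL1, inv_one, one_mul, h3]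
  rw [map_div₀, div_eq_iff hg0] at h4
  rw [h4, mul_comm]

end

end Pool.Agent.Lib.MP_44a246_ntMB
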