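import Mathlib
import Pool.Agent.Lib.MP_44a246_ntMB.MB31

/-!
# Extension of the constants of a function field: the ramification
-/

namespace Pool.Agent.Lib.MP_44a246_ntMB

open Pool.Agent.Lib.MP_44a246_nt
open Pool.Agent.Lib.MP_44a246_ntL
open Pool.Agent.Lib.MP_44a246_ntR
open WithZero Module Polynomial

variable {κ₀ κ' L₀ L' : Type*} [Field κ₀] [IsAlgClosed κ₀] [CharZero κ₀] [Field κ'] [IsAlgClosed κ']
  [CharZero κ'] [Field L₀] [Field L'] [Algebra κ₀ κ'] [Algebra κ₀ L₀] [Algebra κ' L']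
  [Algebra L₀ L'] [Algebra κ₀ L'] [IsScalarTower κ₀ κ' L'] [IsScalarTower κ₀ L₀ L']

omit [IsAlgClosed κ'] [CharZero κ'] [IsAlgClosed κ₀] in
/-- a derivation of `L'` over `κ'` which agrees with a derivation of `L₀` at a transcendental
function agrees with it on `L₀` -/
theorem der_agree (h₀ : IsFF κ₀ L₀) (D : Derivation κ' L' L') (D₀ : Derivation κ₀ L₀ L₀) {t₀ : L₀}
    (ht₀ : Transcendental κ₀ t₀) (h : D (algebraMap L₀ L' t₀) = algebraMap L₀ L' (D₀ t₀))
    (y : L₀) : D (algebraMap L₀ L' y) = algebraMap L₀ L' (D₀ y) := by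
  let E : Derivation κ₀ L₀ L' := Derivation.mk'
      { toFun := fun z => D (algebraMap L₀ L' z) - algebraMap L₀ L' (D₀ z)
        map_add' := fun a b => by
          simp only [map_add]
          ring
        map_smul' := fun c z => by
          have e1 : algebraMap L₀ L' (c • z) =
              algebraMap κ' L' (algebraMap κ₀ κ' c) * algebraMap L₀ L' z := by
            rw [Algebra.smul_def, map_mul, ← IsScalarTower.algebraMap_apply κ₀ L₀ L',
              IsScalarTower.algebraMap_apply κ₀ κ' L']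
          simp only [RingHom.id_apply]
          rw [e1, Derivation.leibniz, Derivation.map_algebraMap, smul_zero, add_zero,
            Derivation.map_smul, Algebra.smul_def c (D₀ z), map_mul,
            ← IsScalarTower.algebraMap_apply κ₀ L₀ L', IsScalarTower.algebraMap_apply κ₀ κ' L',
            Algebra.smul_def c, IsScalarTower.algebraMap_apply κ₀ κ' L', smul_eq_mul]
          ring }
      (fun a b => by
        simp only [LinearMap.coe_mk, AddHom.coe_mk]
        rw [map_mul, Derivation.leibniz, Derivation.leibniz]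
        simp only [smul_eq_mul, map_add, map_mul, Algebra.smul_def]
        ring)
  have hE : ∀ z, E z = D (algebraMap L₀ L' z) - algebraMap L₀ L' (D₀ z) := fun z => rfl
  have halg := alg_over_adjoin h₀ ht₀
  have h1 : E y = 0 := by
    refine der_eq_zero E {t₀} ?_ (halg.isAlgebraic y)
    intro s hs
    rw [Set.mem_singleton_iff.mp hs, hE, h, sub_self]
  rw [hE] at h1
  exact sub_eq_zero.1 h1

variable [Algebra (RatFunc κ₀) L₀] [IsScalarTower κ₀ (RatFunc κ₀) L₀]
  [FiniteDimensional (RatFunc κ₀) L₀]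
  [Algebra (RatFunc κ') L'] [IsScalarTower κ' (RatFunc κ') L'] [FiniteDimensional (RatFunc κ') L']

/-- The places of `L'` which are trivial on `L₀` are unramified over `κ' (t)`.  [The derivation
`d / dt` maps the ring generated by `κ'` and `L₀` into itself, and all its elements are regular; if
`t - c` has the order `e ≥ 2`, then there is an element of the ring whose order is not a multiple
of `e`, and the derivation lowers its order by `e` until it is negative.] -/
theorem IsCE.ramIdx_eq_one (h : IsCE κ₀ κ' L₀ L')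
    (ht : algebraMap L₀ L' (algebraMap (RatFunc κ₀) L₀ RatFunc.X) =
      algebraMap (RatFunc κ') L' RatFunc.X) (w : Place κ' L')
    (hw : ∀ a ≠ 0, w.1 (algebraMap L₀ L' a) = 1) : ramIdx (RatFunc κ') w.1 = 1 := by
  by_contra hne
  obtain ⟨t₀, ht₀⟩ : ∃ t₀, t₀ = algebraMap (RatFunc κ₀) L₀ RatFunc.X := ⟨_, rfl⟩
  have htr₀ : Transcendental κ₀ t₀ := by
    rw [ht₀]
    exact transcendental_tL (κ := κ₀) (L := L₀)
  have ht₀0 : t₀ ≠ 0 := by
    rintro rfl
    exact htr₀ isAlgebraic_zero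
  have hL' : IsFF κ' L' := h.isFF
  have hwt : w.1 (algebraMap (RatFunc κ') L' RatFunc.X) ≤ 1 := by
    rw [← ht, ← ht₀, hw _ ht₀0]
  obtain ⟨c, hc⟩ := hL'.place_residue w hwt
  obtain ⟨e, he⟩ : ∃ e, e = ramIdx (RatFunc κ') w.1 := ⟨_, rfl⟩
  have he1 : 1 ≤ e := by rw [he]; exact one_le_ramIdx (K := RatFunc κ') w.1 w.2.1
  have he2 : 2 ≤ e := by
    rw [← he] at hne
    omega
  obtain ⟨D, hD⟩ := exists_derκ (κ := κ') (L := L')
  obtain ⟨D₀, hD₀⟩ := exists_derκ (κ := κ₀) (L := L₀)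
  have hDD : ∀ y : L₀, D (algebraMap L₀ L' y) = algebraMap L₀ L' (D₀ y) := by
    apply der_agree h.ff D D₀ htr₀
    rw [ht₀, hD₀, map_one, ht, hD]
  -- the elements of the ring are regular
  have hreg : ∀ y : L', Rep κ₀ κ' (⊤ : Subring L₀) y → w.1 y ≤ 1 := by
    rintro y ⟨f, -, rfl⟩
    rw [Finsupp.sum]
    refine Valuation.map_sum_le w.1 fun i _ => ?_
    rw [map_mul]
    refine mul_le_one' (constκ_le w _) ?_
    by_cases h0 : f i = 0
    · rw [h0, map_zero, map_zero]
      exact zero_le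
    · exact (hw _ h0).le
  -- the ring is stable
  have hstab : ∀ y : L', Rep κ₀ κ' (⊤ : Subring L₀) y → Rep κ₀ κ' (⊤ : Subring L₀) (D y) := by
    rintro y ⟨f, -, rfl⟩
    refine ⟨f.mapRange D₀ (map_zero D₀), fun i => Subring.mem_top _, ?_⟩
    rw [Finsupp.sum_mapRange_index (fun i => by rw [map_zero, mul_zero]), Finsupp.sum, map_sum]
    refine Finset.sum_congr rfl fun i _ => ?_
    rw [Derivation.leibniz, Derivation.map_algebraMap, smul_zero, add_zero, hDD, smul_eq_mul]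
  -- an element whose order is not a multiple of `e`
  have hex : ∃ y : L', Rep κ₀ κ' (⊤ : Subring L₀) y ∧ y ≠ 0 ∧ ¬ (e : ℤ) ∣ log (w.1 y) := by
    obtain ⟨y, hy⟩ := w.2.1 (exp (-1 : ℤ))
    obtain ⟨y₁, y₂, h1, h2, h3⟩ := exists_quot (κ₀ := κ₀) h.closure_top y
    have hy0 : y ≠ 0 := by
      rintro rfl
      rw [map_zero] at hy
      exact exp_ne_zero hy.symm
    have hy₁ : y₁ ≠ 0 := by
      rintro rfl
      rw [zero_div] at h3
      exact hy0 h3
    have hy₂ : y₂ ≠ 0 := by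
      rintro rfl
      rw [div_zero] at h3
      exact hy0 h3
    by_contra hcon
    push Not at hcon
    have d1 := hcon y₁ h1 hy₁
    have d2 := hcon y₂ h2 hy₂
    rw [h3, map_div₀] at hy
    have h4 := congrArg log hy
    rw [log_div ((w.1.ne_zero_iff).2 hy₁) ((w.1.ne_zero_iff).2 hy₂), log_exp] at h4
    have h5 : (e : ℤ) ∣ -1 := by
      rw [← h4]
      exact dvd_sub d1 d2
    have h6 : (e : ℤ) ∣ 1 := (dvd_neg).1 h5
    have h7 := Int.le_of_dvd one_pos h6
    omega
  obtain ⟨y, hy, hy0, hdvd⟩ := hex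
  -- iterate
  have hiter : ∀ n : ℕ, ∃ z : L', Rep κ₀ κ' (⊤ : Subring L₀) z ∧ z ≠ 0 ∧
      log (w.1 z) = log (w.1 y) + n * e := by
    intro n
    induction n with
    | zero => exact ⟨y, hy, hy0, by simp⟩
    | succ n ih =>
      obtain ⟨z, hz1, hz2, hz3⟩ := ih
      have hz4 : log (w.1 z) ≠ 0 := by
        intro h0
        apply hdvd
        rw [hz3] at h0
        have : log (w.1 y) = (e : ℤ) * (-(n : ℤ)) := by linarith
        rw [this]
        exact dvd_mul_right _ _
      have hz5 := val_derκ hD w hc hz2 hz4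
      have hz6 : w.1 z ≠ 0 := (w.1.ne_zero_iff).2 hz2
      refine ⟨D z, hstab z hz1, ?_, ?_⟩
      · intro h0
        rw [h0, map_zero] at hz5
        exact mul_ne_zero hz6 exp_ne_zero hz5.symm
      · rw [hz5, log_mul hz6 exp_ne_zero, log_exp, hz3, ← he]
        push_cast
        ring
  obtain ⟨z, hz1, hz2, hz3⟩ := hiter ((-log (w.1 y)).toNat + 1)
  have hz4 := hreg z hz1
  have hz5 : log (w.1 z) ≤ 0 := by
    rw [← log_one (M := ℤ)]
    exact (log_le_log ((w.1.ne_zero_iff).2 hz2) one_ne_zero).2 hz4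
  rw [hz3] at hz5
  have h6 : (-log (w.1 y)) ≤ ((-log (w.1 y)).toNat : ℤ) := Int.self_le_toNat _
  have h7 : (((-log (w.1 y)).toNat + 1 : ℕ) : ℤ) ≤
      (((-log (w.1 y)).toNat + 1 : ℕ) : ℤ) * e := by
    have h8 : (1 : ℤ) ≤ e := by exact_mod_cast he1
    nlinarith [Int.natCast_nonneg ((-log (w.1 y)).toNat + 1)]
  push_cast at h6 h7 hz5
  linarith

/-- the ramification index at an extended place -/
theorem ramIdx_ext (h : IsCE κ₀ κ' L₀ L')
    (ht : algebraMap L₀ L' (algebraMap (RatFunc κ₀) L₀ RatFunc.X) =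
      algebraMap (RatFunc κ') L' RatFunc.X) {v : Place κ₀ L₀} {w : Place κ' L'}
    (hw : ∀ a, w.1 (algebraMap L₀ L' a) = v.1 a) :
    ramIdx (RatFunc κ') w.1 = ramIdx (RatFunc κ₀) v.1 := by
  obtain ⟨t₀, ht₀⟩ : ∃ t₀, t₀ = algebraMap (RatFunc κ₀) L₀ RatFunc.X := ⟨_, rfl⟩
  have htr₀ : Transcendental κ₀ t₀ := by
    rw [ht₀]
    exact transcendental_tL (κ := κ₀) (L := L₀)
  have htr : Transcendental κ' (algebraMap (RatFunc κ') L' RatFunc.X) :=
    transcendental_tL (κ := κ') (L := L')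
  have hntr : Ntr L₀ w := by
    obtain ⟨u, hu⟩ := v.2.1 (exp (-1 : ℤ))
    refine ⟨u, ?_, ?_⟩
    · rintro rfl
      rw [map_zero] at hu
      exact exp_ne_zero hu.symm
    · rw [hw, hu, ← exp_zero, exp_lt_exp]
      omega
  have hmap : ∀ p : κ₀[X], algebraMap L₀ L' (aeval t₀ p) =
      aeval (algebraMap (RatFunc κ') L' RatFunc.X) (p.map (algebraMap κ₀ κ')) := by
    intro p
    rw [← ht, ← ht₀, aeval_map_algebraMap, aeval_algebraMap_apply]
  -- the values of the polynomials over `κ'`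
  have hgauss : ∀ p : κ'[X], p ≠ 0 → ∃ p₀ : κ₀[X], p₀ ≠ 0 ∧
      w.1 (aeval (algebraMap (RatFunc κ') L' RatFunc.X) p) = v.1 (aeval t₀ p₀) := by
    intro p hp
    obtain ⟨O, hO⟩ : ∃ O : Subring L₀, O = (Algebra.adjoin κ₀ {t₀}).toSubring := ⟨_, rfl⟩
    have hOc : ∀ c : κ₀, algebraMap κ₀ L₀ c ∈ O := by
      intro c
      rw [hO]
      exact (Algebra.adjoin κ₀ {t₀}).algebraMap_mem c
    have hOt : t₀ ∈ O := by
      rw [hO]
      exact Algebra.subset_adjoin rfl
    have hOp : ∀ y ∈ O, ∃ p₀ : κ₀[X], aeval t₀ p₀ = y := by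
      intro y hy
      rw [hO] at hy
      have hy' : y ∈ Algebra.adjoin κ₀ {t₀} := hy
      rw [Algebra.adjoin_singleton_eq_range_aeval] at hy'
      obtain ⟨p₀, hp₀⟩ := hy'
      exact ⟨p₀, hp₀⟩
    have h1 : aeval (algebraMap (RatFunc κ') L' RatFunc.X) p ∈
        Subring.closure (Set.range (algebraMap κ' L') ∪ algebraMap L₀ L' '' O) := by
      have hA1 : ∀ c : κ', algebraMap κ' L' c ∈
          Subring.closure (Set.range (algebraMap κ' L') ∪ algebraMap L₀ L' '' O) :=
        fun c => Subring.subset_closure (Or.inl ⟨c, rfl⟩)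
      have hA2 : algebraMap (RatFunc κ') L' RatFunc.X ∈
          Subring.closure (Set.range (algebraMap κ' L') ∪ algebraMap L₀ L' '' O) :=
        Subring.subset_closure (Or.inr ⟨t₀, hOt, by rw [ht₀, ht]⟩)
      rw [aeval_eq_sum_range]
      refine Subring.sum_mem _ fun i _ => ?_
      rw [Algebra.smul_def]
      exact Subring.mul_mem _ (hA1 _) (Subring.pow_mem _ hA2 i)
    obtain ⟨f, hfO, hf⟩ := exists_rep (κ₀ := κ₀) hOc h1
    have hne : aeval (algebraMap (RatFunc κ') L' RatFunc.X) p ≠ 0 := fun h0 =>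
      htr ⟨p, hp, h0⟩
    have hs : f.support.Nonempty := by
      rw [Finset.nonempty_iff_ne_empty]
      intro h0
      rw [Finsupp.sum, h0, Finset.sum_empty] at hf
      exact hne hf
    obtain ⟨i₀, hi₀, hmax⟩ := Finset.exists_max_image f.support
      (fun i => w.1 (algebraMap L₀ L' (f i))) hs
    have h2 := gauss h.ff hntr (ceB κ₀ κ').linearIndependent f.support f hi₀ hmax
    obtain ⟨p₀, hp₀⟩ := hOp (f i₀) (hfO i₀)
    refine ⟨p₀, ?_, ?_⟩
    · rintro rfl
      rw [map_zero] at hp₀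
      exact (Finsupp.mem_support_iff.1 hi₀) hp₀.symm
    · rw [hf, Finsupp.sum, h2, hw, hp₀]
  unfold ramIdx
  congr 1
  ext m
  constructor
  · rintro ⟨hm, s, hs⟩
    refine ⟨hm, ?_⟩
    have hs0 : s ≠ 0 := by
      rintro rfl
      rw [map_zero, map_zero] at hs
      exact exp_ne_zero hs.symm
    obtain ⟨p₀, hp₀, h1⟩ := hgauss s.num (RatFunc.num_ne_zero hs0)
    obtain ⟨q₀, hq₀, h2⟩ := hgauss s.denom (RatFunc.denom_ne_zero s)
    refine ⟨algebraMap κ₀[X] (RatFunc κ₀) p₀ / algebraMap κ₀[X] (RatFunc κ₀) q₀, ?_⟩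
    rw [map_div₀, algebraMap_polyκ, algebraMap_polyκ, ← ht₀, map_div₀, ← h1, ← h2, ← map_div₀,
      ← algebraMap_ratκ, hs]
  · rintro ⟨hm, s, hs⟩
    refine ⟨hm, algebraMap κ'[X] (RatFunc κ') (s.num.map (algebraMap κ₀ κ')) /
      algebraMap κ'[X] (RatFunc κ') (s.denom.map (algebraMap κ₀ κ')), ?_⟩
    rw [map_div₀, algebraMap_polyκ, algebraMap_polyκ, ← hmap, ← hmap, ← map_div₀, hw, ht₀,
      ← algebraMap_ratκ, hs]

theorem IsCE.ramDeg_eq (h : IsCE κ₀ κ' L₀ L')
    (ht : algebraMap L₀ L' (algebraMap (RatFunc κ₀) L₀ RatFunc.X) =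
      algebraMap (RatFunc κ') L' RatFunc.X) :
    ramDeg κ' L' (RatFunc κ') = ramDeg κ₀ L₀ (RatFunc κ₀) := by
  obtain ⟨ext, hinj, hext, hdich⟩ := h.exists_ext
  unfold ramDeg
  have h1 : ∀ w : Place κ' L', w ∈ Function.support (fun w : Place κ' L' =>
      ramIdx (RatFunc κ') w.1 - 1) → (w ∈ Set.univ ↔ w ∈ Set.range ext) := by
    intro w hw'
    refine ⟨fun _ => ?_, fun _ => Set.mem_univ _⟩
    rcases hdich w with h2 | h2
    · exact h2
    · exfalso
      apply hw'
      show ramIdx (RatFunc κ') w.1 - 1 = 0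
      rw [h.ramIdx_eq_one ht w h2]
  rw [← finsum_mem_univ, finsum_mem_inter_support_eq' _ _ _ h1, finsum_mem_range hinj]
  refine finsum_congr fun v => ?_
  rw [ramIdx_ext h ht (hext v)]

end Pool.Agent.Lib.MP_44a246_ntMB
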