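import Mathlib
import Pool.Agent.Lib.MP_44a246_ntMB.MB00
import Pool.Agent.Lib.MP_44a246_ntR.GR3

/-!
# Descent of a function field to a countable algebraically closed field of constants
-/

namespace Pool.Agent.Lib.MP_44a246_ntMB

open Pool.Agent.Lib.MP_44a246_nt
open Pool.Agent.Lib.MP_44a246_ntL
open WithZero Module Polynomial

universe u w

/-- a countable set is contained in a countable algebraically closed subfield -/
theorem exists_subfield (κ : Type u) [Field κ] [IsAlgClosed κ] {T : Set κ} (hT : T.Countable) :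
    ∃ κ₀ : Subfield κ, Countable κ₀ ∧ IsAlgClosed κ₀ ∧ T ⊆ κ₀ := by
  obtain ⟨F, hF⟩ : ∃ F : Subfield κ, F = Subfield.closure T := ⟨_, rfl⟩
  have h1 : Cardinal.mk F ≤ Cardinal.aleph0 := by
    rw [hF]
    exact (Subfield.cardinalMk_closure_le_max T).trans (max_le (Cardinal.mk_le_aleph0_iff.2
      hT.to_subtype) le_rfl)
  have h2 : Cardinal.mk (algebraicClosure F κ) ≤ Cardinal.aleph0 :=
    (Algebra.IsAlgebraic.cardinalMk_le_max F (algebraicClosure F κ)).trans (max_le h1 le_rfl)
  refine ⟨(algebraicClosure F κ).toSubfield, Cardinal.mk_le_aleph0_iff.1 h2, ?_, ?_⟩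
  · exact (algebraicClosure.isAlgClosure F κ).isAlgClosed
  · intro c hc
    have h3 : c ∈ F := by
      rw [hF]
      exact Subfield.subset_closure hc
    exact (algebraicClosure F κ).algebraMap_mem ⟨c, h3⟩

/-- the map of the rational function fields -/
noncomputable def rmap {κ : Type u} [Field κ] (κ₀ : Subfield κ) : RatFunc κ₀ →+* RatFunc κ :=
  IsFractionRing.lift (A := κ₀[X]) (K := RatFunc κ₀)
    (g := (algebraMap κ[X] (RatFunc κ)).comp (Polynomial.mapRingHom κ₀.subtype))
    ((IsFractionRing.injective κ[X] (RatFunc κ)).comp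
      (Polynomial.map_injective _ κ₀.subtype.injective))

theorem rmap_algebraMap {κ : Type u} [Field κ] (κ₀ : Subfield κ) (p : κ₀[X]) :
    rmap κ₀ (algebraMap κ₀[X] (RatFunc κ₀) p) =
      algebraMap κ[X] (RatFunc κ) (p.map κ₀.subtype) := by
  unfold rmap
  rw [IsFractionRing.lift_algebraMap]
  rfl

theorem mem_range_rmap {κ : Type u} [Field κ] (κ₀ : Subfield κ) {c : RatFunc κ}
    (h1 : ∀ j, c.num.coeff j ∈ κ₀) (h2 : ∀ j, c.denom.coeff j ∈ κ₀) :
    c ∈ Set.range (rmap κ₀) := by
  have hl : ∀ p : κ[X], (∀ j, p.coeff j ∈ κ₀) → ∃ q : κ₀[X], q.map κ₀.subtype = p := by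
    intro p hp
    have h3 : p ∈ lifts κ₀.subtype := by
      rw [lifts_iff_coeff_lifts]
      intro j
      exact ⟨⟨_, hp j⟩, rfl⟩
    exact (mem_lifts _).1 h3
  obtain ⟨p, hp⟩ := hl _ h1
  obtain ⟨q, hq⟩ := hl _ h2
  refine ⟨algebraMap κ₀[X] (RatFunc κ₀) p / algebraMap κ₀[X] (RatFunc κ₀) q, ?_⟩
  rw [map_div₀, rmap_algebraMap, rmap_algebraMap, hp, hq, RatFunc.num_div_denom]

/-- A function field over an algebraically closed field `κ` is defined, together with finitely many
of its elements, over a countable algebraically closed subfield of `κ`. -/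
theorem exists_descent (κ : Type u) [Field κ] [IsAlgClosed κ] [CharZero κ] (L : Type w) [Field L]
    [Algebra κ L] [Algebra (RatFunc κ) L] [IsScalarTower κ (RatFunc κ) L]
    [FiniteDimensional (RatFunc κ) L] (S : Finset L) :
    ∃ (κ₀ : Type u) (_ : Field κ₀) (_ : IsAlgClosed κ₀) (_ : CharZero κ₀) (_ : Countable κ₀)
      (_ : Algebra κ₀ κ) (L₀ : Type w) (_ : Field L₀) (_ : Algebra κ₀ L₀) (_ : Algebra L₀ L)
      (_ : Algebra κ₀ L) (_ : IsScalarTower κ₀ κ L) (_ : IsScalarTower κ₀ L₀ L)
      (_ : Algebra (RatFunc κ₀) L₀) (_ : IsScalarTower κ₀ (RatFunc κ₀) L₀)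
      (_ : FiniteDimensional (RatFunc κ₀) L₀), IsCE κ₀ κ L₀ L ∧
      algebraMap L₀ L (algebraMap (RatFunc κ₀) L₀ RatFunc.X) = algebraMap (RatFunc κ) L RatFunc.X ∧
      ∀ s ∈ S, ∃ s₀ : L₀, algebraMap L₀ L s₀ = s := by
  classical
  -- the generators
  obtain ⟨G, hG⟩ := (Module.Finite.fg_top : (⊤ : Submodule (RatFunc κ) L).FG)
  obtain ⟨S', hS'⟩ : ∃ S' : Finset L, S' = S ∪ G := ⟨_, rfl⟩
  -- the coefficients
  obtain ⟨κ₀, hcount, hac, hsub⟩ := exists_subfield κ (T := ⋃ s ∈ (S' : Set L), (⋃ i : ℕ, ⋃ j : ℕ,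
    {((minpoly (RatFunc κ) s).coeff i).num.coeff j,
      ((minpoly (RatFunc κ) s).coeff i).denom.coeff j})) (by
    refine S'.countable_toSet.biUnion fun s _ => ?_
    refine Set.countable_iUnion fun i => Set.countable_iUnion fun j => ?_
    exact (Set.toFinite _).countable)
  have hnum : ∀ s ∈ S', ∀ i j, ((minpoly (RatFunc κ) s).coeff i).num.coeff j ∈ κ₀ := by
    intro s hs i j
    apply hsub
    simp only [Set.mem_iUnion]
    exact ⟨s, hs, i, j, Or.inl rfl⟩
  have hden : ∀ s ∈ S', ∀ i j, ((minpoly (RatFunc κ) s).coeff i).denom.coeff j ∈ κ₀ := by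
    intro s hs i j
    apply hsub
    simp only [Set.mem_iUnion]
    exact ⟨s, hs, i, j, Or.inr rfl⟩
  have hcz : CharZero κ₀ := by
    exact (RingHom.charZero_iff κ₀.subtype.injective).2 inferInstance
  -- the algebra structures
  have t1 : IsScalarTower κ₀ κ L := IsScalarTower.of_algebraMap_eq fun _ => rfl
  let a2 : Algebra (RatFunc κ₀) L := ((algebraMap (RatFunc κ) L).comp (rmap κ₀)).toAlgebra
  have hC : ∀ c : κ₀, rmap κ₀ (algebraMap κ₀ (RatFunc κ₀) c) = algebraMap κ (RatFunc κ) (c : κ) := by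
    intro c
    rw [IsScalarTower.algebraMap_apply κ₀ κ₀[X] (RatFunc κ₀), rmap_algebraMap,
      Polynomial.algebraMap_apply, Polynomial.map_C]
    rfl
  have t2 : IsScalarTower κ₀ (RatFunc κ₀) L := IsScalarTower.of_algebraMap_eq fun c => by
    show algebraMap κ L (c : κ) = algebraMap (RatFunc κ) L (rmap κ₀ (algebraMap κ₀ (RatFunc κ₀) c))
    rw [hC, ← IsScalarTower.algebraMap_apply]
  -- the generators are algebraic over the small field
  have halg : ∀ s ∈ S', IsAlgebraic (RatFunc κ₀) s := by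
    intro s hs
    have h1 : minpoly (RatFunc κ) s ∈ lifts (rmap κ₀) := by
      rw [lifts_iff_coeff_lifts]
      intro i
      exact mem_range_rmap κ₀ (hnum s hs i) (hden s hs i)
    obtain ⟨P, hP⟩ := (mem_lifts _).1 h1
    refine ⟨P, fun h0 => ?_, ?_⟩
    · rw [h0, Polynomial.map_zero] at hP
      exact minpoly.ne_zero (Algebra.IsIntegral.isIntegral (R := RatFunc κ) s) hP.symm
    · have h2 := minpoly.aeval (RatFunc κ) s
      rw [← hP, aeval_def, eval₂_map] at h2
      exact h2
  obtain ⟨L₀, hL₀⟩ : ∃ L₀ : IntermediateField (RatFunc κ₀) L,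
      L₀ = IntermediateField.adjoin (RatFunc κ₀) (S' : Set L) := ⟨_, rfl⟩
  have hfin : FiniteDimensional (RatFunc κ₀) L₀ := by
    rw [hL₀]
    have : Finite (S' : Set L) := S'.finite_toSet
    exact IntermediateField.finiteDimensional_adjoin fun s hs => (halg s hs).isIntegral
  have hmem : ∀ s ∈ S', s ∈ L₀ := fun s hs => by
    rw [hL₀]
    exact IntermediateField.subset_adjoin _ _ hs
  have t3 : IsScalarTower κ₀ L₀ L := IsScalarTower.of_algebraMap_eq fun _ => rfl
  have hX : algebraMap L₀ L (algebraMap (RatFunc κ₀) L₀ RatFunc.X) =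
      algebraMap (RatFunc κ) L RatFunc.X := by
    show algebraMap (RatFunc κ) L (rmap κ₀ RatFunc.X) = _
    rw [← RatFunc.algebraMap_X, rmap_algebraMap, Polynomial.map_X, RatFunc.algebraMap_X]
  have hff : IsFF κ₀ L₀ := Pool.Agent.Lib.MP_44a246_ntR.isFF_of_ratFunc κ₀ L₀
  refine ⟨κ₀, inferInstance, hac, hcz, hcount, inferInstance, L₀, inferInstance, inferInstance,
    inferInstance, inferInstance, t1, t3, inferInstance, inferInstance, hfin, ⟨hff, ?_, ?_⟩, hX, ?_⟩
  · rw [eq_top_iff]
    intro z _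
    obtain ⟨A, hA⟩ : ∃ A : IntermediateField κ L,
        A = IntermediateField.adjoin κ (Set.range (algebraMap L₀ L)) := ⟨_, rfl⟩
    rw [← hA]
    have hrange : ∀ y : L₀, (y : L) ∈ A := fun y => by
      rw [hA]
      exact IntermediateField.subset_adjoin _ _ ⟨y, rfl⟩
    have hXA : algebraMap (RatFunc κ) L RatFunc.X ∈ A := by
      rw [← hX]
      exact hrange _
    have hpol : ∀ p : κ[X], algebraMap (RatFunc κ) L (algebraMap κ[X] (RatFunc κ) p) ∈ A := by
      intro p
      induction p using Polynomial.induction_on' with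
      | add p q hp hq =>
        rw [map_add, map_add]
        exact add_mem hp hq
      | monomial n c =>
        rw [← Polynomial.C_mul_X_pow_eq_monomial, map_mul, map_mul, map_pow, map_pow,
          RatFunc.algebraMap_X]
        refine mul_mem ?_ (pow_mem hXA _)
        have h1 : algebraMap κ[X] (RatFunc κ) (Polynomial.C c) = algebraMap κ (RatFunc κ) c := rfl
        rw [h1, ← IsScalarTower.algebraMap_apply]
        exact A.algebraMap_mem c
    have hrat : ∀ c : RatFunc κ, algebraMap (RatFunc κ) L c ∈ A := by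
      intro c
      rw [← RatFunc.num_div_denom c, map_div₀]
      exact div_mem (hpol _) (hpol _)
    have hz : z ∈ Submodule.span (RatFunc κ) (G : Set L) := by
      rw [hG]
      exact Submodule.mem_top
    induction hz using Submodule.span_induction with
    | mem x hx => exact hrange ⟨x, hmem x (by rw [hS']; exact Finset.mem_union_right _ hx)⟩
    | zero => exact zero_mem _
    | add x y _ _ hx hy => exact add_mem (hx trivial) (hy trivial)
    | smul a x _ hx =>
      rw [Algebra.smul_def]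
      exact mul_mem (hrat a) (hx trivial)
  · refine ⟨algebraMap (RatFunc κ₀) L₀ RatFunc.X, ?_⟩
    rw [hX]
    have h1 : Transcendental κ (RatFunc.X : RatFunc κ) := RatFunc.transcendental_X
    exact fun h2 => h1 ((isAlgebraic_algebraMap_iff (algebraMap (RatFunc κ) L).injective).1 h2)
  · intro s hs
    exact ⟨⟨s, hmem s (by rw [hS']; exact Finset.mem_union_left _ hs)⟩, rfl⟩

end Pool.Agent.Lib.MP_44a246_ntMB
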