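import Mathlib
import Pool.Agent.Lib.MP_44a246_ntMB.MB20
import Pool.Agent.Lib.MP_44a246_ntMB.MB30
import Pool.Agent.Lib.MP_44a246_ntMB.MB40
import Pool.Agent.Lib.MP_44a246_ntMB.MB50
import Pool.Agent.Lib.MP_44a246_ntSH.PJ16a
import Pool.Agent.Lib.MP_44a246_ntR.GR3

/-!
# The theorem of McQuillan and Yamanoi over every algebraically closed field
-/

namespace Pool.Agent.Lib.MP_44a246_ntMB

open Pool.Agent.Lib.MP_44a246_nt
open Pool.Agent.Lib.MP_44a246_ntL
open Pool.Agent.Lib.MP_44a246_ntS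
open Pool.Agent.Lib.MP_44a246_ntSH
open Pool.Agent.Lib.MP_44a246_ntMY
open WithZero Module Polynomial

universe u w

theorem IsCE.height_one {κ₀ κ' L₀ L' : Type*} [Field κ₀] [IsAlgClosed κ₀] [CharZero κ₀] [Field κ']
    [IsAlgClosed κ'] [CharZero κ'] [Field L₀] [Field L'] [Algebra κ₀ κ'] [Algebra κ₀ L₀]
    [Algebra κ' L'] [Algebra L₀ L'] [Algebra κ₀ L'] [IsScalarTower κ₀ κ' L']
    [IsScalarTower κ₀ L₀ L'] (h : IsCE κ₀ κ' L₀ L') (x : L₀) :
    height κ' ![1, algebraMap L₀ L' x] = height κ₀ ![1, x] := by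
  have hne : (![1, x] : Fin 2 → L₀) ≠ 0 := fun h0 => one_ne_zero (congrFun h0 0)
  rw [← h.height_eq hne]
  congr 1
  funext i
  fin_cases i
  · exact (map_one _).symm
  · rfl

theorem myp_of_complex (h : MYP.{0, 0} ℂ) (κ : Type u) [Field κ] [IsAlgClosed κ] [CharZero κ] :
    MYP.{u, w} κ := by
  intro q ε hε
  obtain ⟨C, hC⟩ := h q ε hε
  refine ⟨C + q, ?_⟩
  intro L _ _ _ _ _ x b hb
  have hL : IsFF κ L := Pool.Agent.Lib.MP_44a246_ntR.isFF_of_ratFunc κ L
  have n1 : ∀ y : L, (0 : ℝ) ≤ height κ ![1, y] := fun y => by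
    exact_mod_cast height_one_nonneg hL y
  have n2 : (0 : ℝ) ≤ ∑ v, (height κ ![1, b v] : ℝ) := Finset.sum_nonneg fun v _ => n1 _
  have n3 : (0 : ℝ) ≤ finrank (RatFunc κ) L := by positivity
  have n4 : (0 : ℝ) ≤ ramDeg κ L (RatFunc κ) := by positivity
  have n5 : (0 : ℝ) ≤ Set.ncard {w : Place κ L | ∃ v, Meets w x (b v)} := by positivity
  have n6 : (0 : ℝ) ≤ C := by positivity
  have n7 : (0 : ℝ) ≤ q := by positivity
  have n8 := mul_nonneg n7 n3
  have n9 := mul_nonneg n7 n2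
  by_cases hx : ∃ v, b v = x
  · obtain ⟨v, hv⟩ := hx
    have h1 : (height κ ![1, x] : ℝ) ≤ ∑ v, (height κ ![1, b v] : ℝ) := by
      rw [← hv]
      exact Finset.single_le_sum (f := fun v => (height κ ![1, b v] : ℝ)) (fun v _ => n1 _)
        (Finset.mem_univ v)
    have h2 : ((q : ℝ) - 2 - ε) * height κ ![1, x] ≤ q * ∑ v, (height κ ![1, b v] : ℝ) := by
      have h3 : ((q : ℝ) - 2 - ε) * height κ ![1, x] ≤ q * height κ ![1, x] :=
        mul_le_mul_of_nonneg_right (by linarith) (n1 _)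
      exact h3.trans (mul_le_mul_of_nonneg_left h1 n7)
    have h4 := mul_nonneg n6 (add_nonneg n3 n2)
    push_cast
    nlinarith
  · push Not at hx
    classical
    obtain ⟨κ₀, _, _, _, _, _, L₀, _, _, _, _, _, _, _, _, _, hCE, hX, hS⟩ :=
      exists_descent κ L (insert x (Finset.univ.image b))
    obtain ⟨x₀, hx₀⟩ := hS x (Finset.mem_insert_self _ _)
    have hb' : ∀ v, ∃ s₀ : L₀, algebraMap L₀ L s₀ = b v := fun v =>
      hS _ (Finset.mem_insert_of_mem (Finset.mem_image_of_mem _ (Finset.mem_univ v)))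
    choose b₀ hb₀ using hb'
    obtain ⟨φ⟩ := exists_hom_complex κ₀
    let a1 : Algebra κ₀ ℂ := φ.toAlgebra
    obtain ⟨L', _, _, _, _, _, _, _, _, _, hCE', hX'⟩ := exists_CE κ₀ ℂ L₀
    have hinj₀ : Function.Injective b₀ := fun v v' h' => hb (by rw [← hb₀, ← hb₀, h'])
    have hne₀ : ∀ v, b₀ v ≠ x₀ := fun v h' => hx v (by rw [← hb₀, ← hx₀, h'])
    have key := hC L' (algebraMap L₀ L' x₀) (fun v => algebraMap L₀ L' (b₀ v))
      ((algebraMap L₀ L').injective.comp hinj₀)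
    rw [hCE'.height_one, hCE'.ncard_meets hne₀, hCE'.ramDeg_eq hX', hCE'.finrank_eq hX'] at key
    simp only [hCE'.height_one] at key
    have e1 : height κ ![1, x] = height κ₀ ![1, x₀] := by rw [← hx₀, hCE.height_one]
    have e2 : ∀ v, height κ ![1, b v] = height κ₀ ![1, b₀ v] := fun v => by
      rw [← hb₀, hCE.height_one]
    have e3 : Set.ncard {w : Place κ L | ∃ v, Meets w x (b v)} =
        Set.ncard {w : Place κ₀ L₀ | ∃ v, Meets w x₀ (b₀ v)} := by
      rw [← hCE.ncard_meets hne₀]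
      simp only [hx₀, hb₀]
    rw [e1, e3, hCE.ramDeg_eq hX, hCE.finrank_eq hX]
    simp only [e2]
    simp only [e2] at n2 n9
    rw [hCE.finrank_eq hX] at n3 n8
    refine key.trans ?_
    have h5 : (C : ℝ) * ((finrank (RatFunc κ₀) L₀ : ℝ) + ∑ v, (height κ₀ ![1, b₀ v] : ℝ)) ≤
        ((C + q : ℕ) : ℝ) * ((finrank (RatFunc κ₀) L₀ : ℝ) + ∑ v, (height κ₀ ![1, b₀ v] : ℝ)) := by
      refine mul_le_mul_of_nonneg_right ?_ (add_nonneg n3 n2)
      push_cast
      linarith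
    linarith

end Pool.Agent.Lib.MP_44a246_ntMB
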