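import Mathlib
import Pool.Agent.Lib.MP_44a246_ntMB.MB60
import Pool.Agent.Lib.MP_44a246_ntMY.MY70

/-!
# The inequality for points and moving targets on the line, with the coefficient two for the degree
of the field, over every algebraically closed field of characteristic zero
-/

namespace Pool.Agent.Lib.MP_44a246_ntMB

open Pool.Agent.Lib.MP_44a246_ntMY

universe u w

/-- `MYP` over every algebraically closed field of characteristic zero -/
theorem myp (κ : Type u) [Field κ] [IsAlgClosed κ] [CharZero κ] : MYP.{u, w} κ :=
  myp_of_complex myp_complex κ

end Pool.Agent.Lib.MP_44a246_ntMB
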